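import Mathlib
import Pool.Agent.H373R2.T7.BilF

/-!
# A bilinear form with a function of small Fourier transform
-/

set_option autoImplicit false

open Finset

namespace Pool.Agent.Zk78.SP

open Pool.Agent.H807R2.Dav Pool.Agent.H373R2.T7

/-- extension by zero to the integers -/
def tr (Z : ℕ) (f : ℕ → ℝ) (k : ℤ) : ℝ := if 1 ≤ k ∧ k ≤ Z then f k.toNat else 0

theorem tr_expand (Z : ℕ) (f : ℕ → ℝ) (u v : ℕ) (hu : u ∈ Icc 1 Z) (hv : v ∈ Icc 1 Z) :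
    (((3 * Z : ℕ) : ℂ)) * ((tr Z f ((u : ℤ) - v) : ℝ) : ℂ) =
      ∑ k ∈ Icc 1 Z, ∑ t ∈ range (3 * Z),
        ((f k : ℝ) : ℂ) * ee ((t : ℝ) * ((((u : ℤ) - v - k : ℤ) : ℝ) / ((3 * Z : ℕ) : ℝ))) := by
  rw [mem_Icc] at hu hv
  have hM : 1 ≤ 3 * Z := by omega
  have h1 : ∀ k ∈ Icc 1 Z, ∑ t ∈ range (3 * Z),
      ((f k : ℝ) : ℂ) * ee ((t : ℝ) * ((((u : ℤ) - v - k : ℤ) : ℝ) / ((3 * Z : ℕ) : ℝ))) =
      if (u : ℤ) - v = k then (((3 * Z : ℕ) : ℂ)) * ((f k : ℝ) : ℂ) else 0 := by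
    intro k hk
    rw [mem_Icc] at hk
    rw [← mul_sum, orth (3 * Z) hM]
    by_cases h : (u : ℤ) - v = k
    · have h2 : (u : ℤ) - v - k = 0 := by omega
      rw [if_pos h, h2, if_pos (dvd_zero _)]
      ring
    · rw [if_neg h, if_neg, mul_zero]
      intro hd
      have h3 : |(u : ℤ) - v - k| < ((3 * Z : ℕ) : ℤ) := by
        rw [abs_lt]; push_cast; constructor <;> omega
      have h4 := Int.eq_zero_of_abs_lt_dvd hd h3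
      exact h (by omega)
  rw [sum_congr rfl h1]
  unfold tr
  by_cases h : 1 ≤ (u : ℤ) - v ∧ (u : ℤ) - v ≤ Z
  · rw [if_pos h, sum_eq_single ((u : ℤ) - v).toNat]
    · rw [if_pos (by omega)]
    · intro k _ hk
      rw [if_neg (by omega)]
    · intro hk
      exfalso
      apply hk
      rw [mem_Icc]
      omega
  · rw [if_neg h, sum_eq_zero]
    · simp
    · intro k hk
      rw [mem_Icc] at hk
      rw [if_neg]
      intro h5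
      apply h
      omega

/-- the bilinear bound -/
theorem bil (Z : ℕ) (h a b : ℕ → ℝ) (η La Lb : ℝ) (hLa : 0 ≤ La) (hLb : 0 ≤ Lb) (hη : 0 ≤ η)
    (hsup : ∀ θ : ℝ, ‖∑ k ∈ Icc 1 Z, ((h k : ℝ) : ℂ) * ee ((k : ℝ) * θ)‖ ≤ η)
    (ha : ∀ u ∈ Icc 1 Z, |a u| ≤ La) (hb : ∀ v ∈ Icc 1 Z, |b v| ≤ Lb) :
    |∑ u ∈ Icc 1 Z, ∑ v ∈ Icc 1 Z, tr Z h ((u : ℤ) - v) * (a u * b v)| ≤ η * (Z * (La * Lb)) := by
  rcases Nat.eq_zero_or_pos Z with hZ | hZ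
  · subst hZ; simp
  set M : ℕ := 3 * Z with hM
  have hM1 : 1 ≤ M := by omega
  have hM0 : (0 : ℝ) < M := by exact_mod_cast hM1
  set A : ℕ → ℂ := fun t => ∑ u ∈ Icc 1 Z, ((a u : ℝ) : ℂ) * ee ((t : ℝ) * (((1 * (u : ℤ) : ℤ) : ℝ) / M)) with hA
  set B : ℕ → ℂ := fun t => ∑ v ∈ Icc 1 Z, ((b v : ℝ) : ℂ) * ee ((t : ℝ) * (((-1 * (v : ℤ) : ℤ) : ℝ) / M)) with hB
  set S : ℕ → ℂ := fun t => ∑ k ∈ Icc 1 Z, ((h k : ℝ) : ℂ) * ee ((k : ℝ) * (-(t : ℝ) / M)) with hS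
  have key : (M : ℂ) * ((∑ u ∈ Icc 1 Z, ∑ v ∈ Icc 1 Z, tr Z h ((u : ℤ) - v) * (a u * b v) : ℝ) : ℂ) =
      ∑ t ∈ range M, A t * B t * S t := by
    push_cast
    rw [mul_sum]
    have e1 : ∀ u ∈ Icc 1 Z, (M : ℂ) * ∑ v ∈ Icc 1 Z, ((tr Z h ((u : ℤ) - v) : ℝ) : ℂ) * (((a u : ℝ) : ℂ) * ((b v : ℝ) : ℂ)) =
        ∑ t ∈ range M, ∑ v ∈ Icc 1 Z, ∑ k ∈ Icc 1 Z,
          (((a u : ℝ) : ℂ) * ee ((t : ℝ) * (((1 * (u : ℤ) : ℤ) : ℝ) / M))) *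
          (((b v : ℝ) : ℂ) * ee ((t : ℝ) * (((-1 * (v : ℤ) : ℤ) : ℝ) / M))) *
          (((h k : ℝ) : ℂ) * ee ((k : ℝ) * (-(t : ℝ) / M))) := by
      intro u hu
      rw [mul_sum, sum_comm]
      refine sum_congr rfl fun v hv => ?_
      have e2 := tr_expand Z h u v hu hv
      rw [← hM] at e2
      have e3 : (M : ℂ) * (((tr Z h ((u : ℤ) - v) : ℝ) : ℂ) * (((a u : ℝ) : ℂ) * ((b v : ℝ) : ℂ))) =
          ((M : ℂ) * ((tr Z h ((u : ℤ) - v) : ℝ) : ℂ)) * (((a u : ℝ) : ℂ) * ((b v : ℝ) : ℂ)) := by ring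
      rw [e3, e2, sum_mul, sum_comm]
      refine sum_congr rfl fun k _ => ?_
      rw [sum_mul]
      refine sum_congr rfl fun t _ => ?_
      have e4 : ee ((t : ℝ) * ((((u : ℤ) - v - k : ℤ) : ℝ) / (M : ℝ))) =
          ee ((t : ℝ) * (((1 * (u : ℤ) : ℤ) : ℝ) / M)) * ee ((t : ℝ) * (((-1 * (v : ℤ) : ℤ) : ℝ) / M)) *
            ee ((k : ℝ) * (-(t : ℝ) / M)) := by
        rw [← ee_add, ← ee_add]
        congr 1
        push_cast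
        ring
      rw [e4]
      ring
    rw [sum_congr rfl e1, sum_comm]
    refine sum_congr rfl fun t _ => ?_
    rw [hA, hB, hS]
    dsimp only
    rw [sum_mul_sum, sum_mul]
    refine sum_congr rfl fun u _ => ?_
    rw [sum_mul_sum]
  have hpa := parseval_Icc Z M hM1 (by omega) (fun u => ((a u : ℝ) : ℂ)) 1 (Or.inl rfl)
  have hpb := parseval_Icc Z M hM1 (by omega) (fun u => ((b u : ℝ) : ℂ)) (-1) (Or.inr rfl)
  have hsa : ∑ u ∈ Icc 1 Z, ‖((a u : ℝ) : ℂ)‖ ^ 2 ≤ Z * La ^ 2 := by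
    calc _ ≤ ∑ u ∈ Icc 1 Z, La ^ 2 := sum_le_sum fun u hu => by
          rw [Complex.norm_real, Real.norm_eq_abs]
          exact pow_le_pow_left₀ (abs_nonneg _) (ha u hu) 2
      _ = _ := by rw [sum_const, Nat.card_Icc, nsmul_eq_mul]; simp
  have hsb : ∑ u ∈ Icc 1 Z, ‖((b u : ℝ) : ℂ)‖ ^ 2 ≤ Z * Lb ^ 2 := by
    calc _ ≤ ∑ u ∈ Icc 1 Z, Lb ^ 2 := sum_le_sum fun u hu => by
          rw [Complex.norm_real, Real.norm_eq_abs]
          exact pow_le_pow_left₀ (abs_nonneg _) (hb u hu) 2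
      _ = _ := by rw [sum_const, Nat.card_Icc, nsmul_eq_mul]; simp
  have hn : (M : ℝ) * |∑ u ∈ Icc 1 Z, ∑ v ∈ Icc 1 Z, tr Z h ((u : ℤ) - v) * (a u * b v)| ≤
      ∑ t ∈ range M, ‖A t‖ * ‖B t‖ * η := by
    have e := congrArg norm key
    rw [norm_mul, Complex.norm_real, Real.norm_eq_abs] at e
    have e0 : ‖(M : ℂ)‖ = (M : ℝ) := by simp
    rw [e0] at e
    rw [e]
    refine (norm_sum_le _ _).trans (sum_le_sum fun t _ => ?_)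
    rw [norm_mul, norm_mul]
    exact mul_le_mul_of_nonneg_left (hsup _) (by positivity)
  rw [← sum_mul] at hn
  have hcs : (∑ t ∈ range M, ‖A t‖ * ‖B t‖) ^ 2 ≤ ((M : ℝ) * (Z * (La * Lb))) ^ 2 := by
    refine (sum_mul_sq_le_sq_mul_sq _ _ _).trans ?_
    have h1 : ∑ t ∈ range M, ‖A t‖ ^ 2 ≤ M * (Z * La ^ 2) := by
      rw [hA]; dsimp only
      rw [hpa]
      exact mul_le_mul_of_nonneg_left hsa hM0.le
    have h2 : ∑ t ∈ range M, ‖B t‖ ^ 2 ≤ M * (Z * Lb ^ 2) := by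
      rw [hB]; dsimp only
      rw [hpb]
      exact mul_le_mul_of_nonneg_left hsb hM0.le
    calc _ ≤ (M * (Z * La ^ 2)) * (M * (Z * Lb ^ 2)) :=
          mul_le_mul h1 h2 (sum_nonneg fun t _ => by positivity) (by positivity)
      _ = _ := by ring
  have hcs' : ∑ t ∈ range M, ‖A t‖ * ‖B t‖ ≤ (M : ℝ) * (Z * (La * Lb)) :=
    le_of_sq_le_sq hcs (by positivity)
  have h5 := hn.trans (mul_le_mul_of_nonneg_right hcs' hη)
  have h6 : (M : ℝ) * |∑ u ∈ Icc 1 Z, ∑ v ∈ Icc 1 Z, tr Z h ((u : ℤ) - v) * (a u * b v)| ≤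
      M * (η * (Z * (La * Lb))) := h5.trans (le_of_eq (by ring))
  exact le_of_mul_le_mul_left h6 hM0

end Pool.Agent.Zk78.SP
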