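import Mathlib

/-!
# Averaging over one coordinate
-/

set_option autoImplicit false

open Finset

namespace Pool.Agent.Zk78.SP

/-- Summing over one coordinate again multiplies the sum by the number of its values. -/
theorem sum_update {ι α : Type*} [Fintype ι] [DecidableEq ι] {R : Type*}
    [CommSemiring R] (S : ι → Finset α) (i : ι) (H : (ι → α) → R) :
    ∑ x ∈ Fintype.piFinset S, ∑ u ∈ S i, H (Function.update x i u) =
      ((S i).card : R) * ∑ x ∈ Fintype.piFinset S, H x := by
  classical
  have h1 : ((S i).card : R) * ∑ x ∈ Fintype.piFinset S, H x =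
      ∑ x ∈ Fintype.piFinset S, ∑ _u ∈ S i, H x := by
    rw [mul_sum]
    refine sum_congr rfl fun x _ => ?_
    rw [sum_const, nsmul_eq_mul]
  rw [h1, ← sum_product', ← sum_product']
  refine sum_bij' (fun z _ => (Function.update z.1 i z.2, z.1 i))
    (fun z _ => (Function.update z.1 i z.2, z.1 i)) ?_ ?_ ?_ ?_ ?_
  · rintro ⟨x, u⟩ hz
    rw [mem_product, Fintype.mem_piFinset] at hz ⊢
    refine ⟨fun j => ?_, hz.1 i⟩
    by_cases h : j = i
    · subst h; simpa using hz.2
    · simpa [Function.update_of_ne h] using hz.1 j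
  · rintro ⟨x, u⟩ hz
    rw [mem_product, Fintype.mem_piFinset] at hz ⊢
    refine ⟨fun j => ?_, hz.1 i⟩
    by_cases h : j = i
    · subst h; simpa using hz.2
    · simpa [Function.update_of_ne h] using hz.1 j
  · rintro ⟨x, u⟩ _
    simp
  · rintro ⟨x, u⟩ _
    simp
  · rintro ⟨x, u⟩ _
    rfl

/-- The same over all functions. -/
theorem sum_update_univ {ι α : Type*} [Fintype ι] [DecidableEq ι] [Fintype α]
    {R : Type*} [CommSemiring R] (i : ι) (H : (ι → α) → R) :
    ∑ x : ι → α, ∑ u : α, H (Function.update x i u) = (Fintype.card α : R) * ∑ x, H x := by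
  have h := sum_update (fun _ : ι => (univ : Finset α)) i H
  simpa using h

end Pool.Agent.Zk78.SP
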