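import Mathlib
import Pool.Agent.Zk78.SP.Upd
import Pool.Agent.Zk78.SP.Bil

/-!
# Sums over the homomorphisms of a graph, and exchange of the weights of the edges
-/

set_option autoImplicit false

open Finset

namespace Pool.Agent.Zk78.SP

open Pool.Agent.H807R2.Dav Pool.Agent.H373R2.T7

/-- a simple graph, given by a set of oriented edges -/
def Simp {n : ℕ} (E : Finset (Fin n × Fin n)) : Prop :=
  ∀ e ∈ E, e.1 ≠ e.2 ∧ (e.2, e.1) ∉ E

/-- the box -/
def bx (n Z : ℕ) : Finset (Fin n → ℕ) := Fintype.piFinset fun _ => Icc 1 Z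

/-- the graph sum -/
noncomputable def GS {n : ℕ} (Z : ℕ) (E : Finset (Fin n × Fin n))
    (f : Fin n × Fin n → ℕ → ℝ) : ℝ :=
  ∑ x ∈ bx n Z, ∏ e ∈ E, tr Z (f e) ((x e.1 : ℤ) - x e.2)

theorem card_bx (n Z : ℕ) : (bx n Z).card = Z ^ n := by
  unfold bx
  rw [Fintype.card_piFinset]
  simp

theorem tr_abs_le {Z : ℕ} {f : ℕ → ℝ} {L : ℝ} (hL : 0 ≤ L) (h : ∀ k ∈ Icc 1 Z, |f k| ≤ L) (k : ℤ) :
    |tr Z f k| ≤ L := by
  unfold tr
  split_ifs with h1
  · apply h
    rw [mem_Icc]
    omega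
  · simpa using hL

/-- one edge with a function of small Fourier transform -/
theorem one_edge {n : ℕ} (Z : ℕ) (hZ : 1 ≤ Z) (E : Finset (Fin n × Fin n)) (hE : Simp E)
    (e0 : Fin n × Fin n) (he0 : e0 ∈ E) (h : Fin n × Fin n → ℕ → ℝ) (d : ℕ → ℝ) (L ε : ℝ)
    (hL : 1 ≤ L) (hε : 0 ≤ ε) (hh : ∀ e ∈ E, ∀ k ∈ Icc 1 Z, |h e k| ≤ L)
    (hd : ∀ θ : ℝ, ‖∑ k ∈ Icc 1 Z, ((d k : ℝ) : ℂ) * ee ((k : ℝ) * θ)‖ ≤ ε * Z) :
    |∑ x ∈ bx n Z, tr Z d ((x e0.1 : ℤ) - x e0.2) *
      ∏ e ∈ E.erase e0, tr Z (h e) ((x e.1 : ℤ) - x e.2)| ≤ ε * L ^ E.card * Z ^ n := by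
  classical
  obtain ⟨i, j⟩ := e0
  have hij : i ≠ j := (hE _ he0).1
  have hji : (j, i) ∉ E := (hE _ he0).2
  have hZ0 : (0 : ℝ) < Z := by exact_mod_cast hZ
  have hL0 : 0 ≤ L := by linarith
  obtain ⟨H, hH⟩ : ∃ H : (Fin n → ℕ) → ℝ, ∀ x, H x = tr Z d ((x i : ℤ) - x j) *
      ∏ e ∈ E.erase (i, j), tr Z (h e) ((x e.1 : ℤ) - x e.2) := ⟨_, fun _ => rfl⟩
  have hgoal : ∑ x ∈ bx n Z, tr Z d ((x (i, j).1 : ℤ) - x (i, j).2) *
      ∏ e ∈ E.erase (i, j), tr Z (h e) ((x e.1 : ℤ) - x e.2) = ∑ x ∈ bx n Z, H x :=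
    sum_congr rfl fun x _ => (hH x).symm
  rw [hgoal]
  set E1 := (E.erase (i, j)).filter (fun e => e.1 = i ∨ e.2 = i) with hE1
  set E2 := (E.erase (i, j)).filter (fun e => ¬ (e.1 = i ∨ e.2 = i)) with hE2
  have hcard : E1.card + E2.card ≤ E.card := by
    rw [hE1, hE2, card_filter_add_card_filter_not]
    exact card_le_card (erase_subset _ _)
  obtain ⟨A, hA⟩ : ∃ A : (Fin n → ℕ) → ℕ → ℝ, ∀ x u, A x u = ∏ e ∈ E1, tr Z (h e)
      ((Function.update x i u e.1 : ℤ) - Function.update x i u e.2) := ⟨_, fun _ _ => rfl⟩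
  obtain ⟨B, hB⟩ : ∃ B : (Fin n → ℕ) → ℕ → ℝ, ∀ x u, B x u = ∏ e ∈ E2, tr Z (h e)
      ((Function.update x j u e.1 : ℤ) - Function.update x j u e.2) := ⟨_, fun _ _ => rfl⟩
  have hfac : ∀ (x : Fin n → ℕ) (u v : ℕ), H (Function.update (Function.update x i u) j v) =
      tr Z d ((u : ℤ) - v) * (A x u * B x v) := by
    intro x u v
    rw [hH, hA, hB]
    have y1 : Function.update (Function.update x i u) j v i = u := by
      rw [Function.update_of_ne hij, Function.update_self]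
    have y2 : Function.update (Function.update x i u) j v j = v := Function.update_self _ _ _
    rw [y1, y2]
    congr 1
    rw [← prod_filter_mul_prod_filter_not (E.erase (i, j)) (fun e => e.1 = i ∨ e.2 = i)]
    congr 1
    · refine prod_congr rfl fun e he => ?_
      rw [mem_filter, mem_erase] at he
      obtain ⟨⟨h1, h2⟩, h3⟩ := he
      have n1 : e.1 ≠ j := by
        intro h4
        rcases h3 with h3 | h3
        · exact hij (h3.symm.trans h4)
        · exact hji (by rw [← h4, ← h3]; exact h2)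
      have n2 : e.2 ≠ j := by
        intro h4
        rcases h3 with h3 | h3
        · exact h1 (Prod.ext h3 h4)
        · exact hij (h3.symm.trans h4)
      rw [Function.update_of_ne n1, Function.update_of_ne n2]
    · refine prod_congr rfl fun e he => ?_
      rw [mem_filter, mem_erase] at he
      obtain ⟨⟨h1, h2⟩, h3⟩ := he
      push Not at h3
      have m1 : ∀ k : Fin n, k ≠ i → Function.update (Function.update x i u) j v k =
          Function.update x j v k := by
        intro k hk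
        by_cases hkj : k = j
        · subst hkj
          rw [Function.update_self, Function.update_self]
        · rw [Function.update_of_ne hkj, Function.update_of_ne hk, Function.update_of_ne hkj]
      rw [m1 _ h3.1, m1 _ h3.2]
  have hAb : ∀ x u, |A x u| ≤ L ^ E1.card := by
    intro x u
    rw [hA, abs_prod]
    calc _ ≤ ∏ _e ∈ E1, L := prod_le_prod (fun _ _ => abs_nonneg _) fun e he => by
          refine tr_abs_le hL0 (hh e ?_) _
          rw [hE1, mem_filter, mem_erase] at he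
          exact he.1.2
      _ = _ := prod_const _
  have hBb : ∀ x u, |B x u| ≤ L ^ E2.card := by
    intro x u
    rw [hB, abs_prod]
    calc _ ≤ ∏ _e ∈ E2, L := prod_le_prod (fun _ _ => abs_nonneg _) fun e he => by
          refine tr_abs_le hL0 (hh e ?_) _
          rw [hE2, mem_filter, mem_erase] at he
          exact he.1.2
      _ = _ := prod_const _
  have hbil : ∀ x : Fin n → ℕ, |∑ u ∈ Icc 1 Z, ∑ v ∈ Icc 1 Z,
      H (Function.update (Function.update x i u) j v)| ≤ ε * Z * (Z * L ^ E.card) := by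
    intro x
    simp only [hfac]
    refine (bil Z d (A x) (B x) (ε * Z) (L ^ E1.card) (L ^ E2.card) (by positivity)
      (by positivity) (by positivity) hd (fun u _ => hAb x u) (fun u _ => hBb x u)).trans ?_
    refine mul_le_mul_of_nonneg_left ?_ (by positivity)
    refine mul_le_mul_of_nonneg_left ?_ hZ0.le
    rw [← pow_add]
    exact pow_le_pow_right₀ hL hcard
  have e1 := sum_update (R := ℝ) (fun _ : Fin n => Icc 1 Z) i H
  have e2 : ∑ x ∈ bx n Z, ∑ u ∈ Icc 1 Z, ∑ v ∈ Icc 1 Z,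
      H (Function.update (Function.update x i u) j v) = (Z : ℝ) * ((Z : ℝ) * ∑ x ∈ bx n Z, H x) := by
    have e3 := sum_update (R := ℝ) (fun _ : Fin n => Icc 1 Z) i
      (fun x => ∑ v ∈ Icc 1 Z, H (Function.update x j v))
    have e4 := sum_update (R := ℝ) (fun _ : Fin n => Icc 1 Z) j H
    simp only [Nat.card_Icc, Nat.add_sub_cancel] at e3 e4
    unfold bx
    rw [e3, e4]
  have e5 : |(Z : ℝ) * ((Z : ℝ) * ∑ x ∈ bx n Z, H x)| ≤
      (Z : ℝ) ^ n * (ε * Z * (Z * L ^ E.card)) := by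
    rw [← e2]
    refine (abs_sum_le_sum_abs _ _).trans ?_
    calc _ ≤ ∑ _x ∈ bx n Z, ε * Z * (Z * L ^ E.card) := sum_le_sum fun x _ => hbil x
      _ = _ := by rw [sum_const, card_bx, nsmul_eq_mul]; push_cast; ring
  rw [abs_mul, abs_mul, abs_of_pos hZ0] at e5
  have e6 : (Z : ℝ) * (Z * |∑ x ∈ bx n Z, H x|) ≤ Z * (Z * (ε * L ^ E.card * Z ^ n)) := by
    refine e5.trans (le_of_eq ?_)
    ring
  exact le_of_mul_le_mul_left (le_of_mul_le_mul_left e6 hZ0) hZ0

/-- exchange of all the weights -/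
theorem repl {n : ℕ} (Z : ℕ) (hZ : 1 ≤ Z) (E : Finset (Fin n × Fin n)) (hE : Simp E)
    (f g : Fin n × Fin n → ℕ → ℝ) (L ε : ℝ) (hL : 1 ≤ L) (hε : 0 ≤ ε)
    (hf : ∀ e ∈ E, ∀ k ∈ Icc 1 Z, |f e k| ≤ L) (hg : ∀ e ∈ E, ∀ k ∈ Icc 1 Z, |g e k| ≤ L)
    (hd : ∀ e ∈ E, ∀ θ : ℝ,
      ‖∑ k ∈ Icc 1 Z, ((f e k - g e k : ℝ) : ℂ) * ee ((k : ℝ) * θ)‖ ≤ ε * Z) :
    |GS Z E f - GS Z E g| ≤ E.card * (ε * L ^ E.card * Z ^ n) := by
  classical
  obtain ⟨hy, hhy⟩ : ∃ hy : Finset (Fin n × Fin n) → Fin n × Fin n → ℕ → ℝ,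
    ∀ S e, hy S e = if e ∈ S then g e else f e := ⟨_, fun _ _ => rfl⟩
  have hyb : ∀ S, ∀ e ∈ E, ∀ k ∈ Icc 1 Z, |hy S e k| ≤ L := by
    intro S e he k hk
    rw [hhy]
    split_ifs
    exacts [hg e he k hk, hf e he k hk]
  have key : ∀ S ⊆ E, |GS Z E f - GS Z E (hy S)| ≤ S.card * (ε * L ^ E.card * Z ^ n) := by
    intro S
    induction S using Finset.induction_on with
    | empty =>
      intro _
      have : GS Z E (hy ∅) = GS Z E f := by
        unfold GS
        refine sum_congr rfl fun x _ => prod_congr rfl fun e _ => ?_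
        rw [hhy, if_neg (notMem_empty e)]
      rw [this]
      simp
    | insert e0 S he0 ih =>
      intro hS
      have hS' : S ⊆ E := (subset_insert _ _).trans hS
      have h0 : e0 ∈ E := hS (mem_insert_self _ _)
      have h1 := ih hS'
      have h2 := one_edge Z hZ E hE e0 h0 (hy S) (fun k => f e0 k - g e0 k) L ε hL hε (hyb S)
        (hd e0 h0)
      have h3 : GS Z E (hy S) - GS Z E (hy (insert e0 S)) =
          ∑ x ∈ bx n Z, tr Z (fun k => f e0 k - g e0 k) ((x e0.1 : ℤ) - x e0.2) *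
      ∏ e ∈ E.erase e0, tr Z (hy S e) ((x e.1 : ℤ) - x e.2) := by
        unfold GS
        rw [← sum_sub_distrib]
        refine sum_congr rfl fun x _ => ?_
        rw [← mul_prod_erase E _ h0, ← mul_prod_erase E (fun e => tr Z (hy (insert e0 S) e) _) h0]
        have h4 : ∏ e ∈ E.erase e0, tr Z (hy (insert e0 S) e) ((x e.1 : ℤ) - x e.2) =
            ∏ e ∈ E.erase e0, tr Z (hy S e) ((x e.1 : ℤ) - x e.2) := by
          refine prod_congr rfl fun e he => ?_
          rw [mem_erase] at he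
          have : hy (insert e0 S) e = hy S e := by
            rw [hhy, hhy]
            by_cases h5 : e ∈ S
            · rw [if_pos h5, if_pos (mem_insert_of_mem h5)]
            · rw [if_neg h5, if_neg]
              rw [mem_insert]
              push Not
              exact ⟨he.1, h5⟩
          rw [this]
        rw [h4, ← sub_mul]
        congr 1
        have h5 : hy S e0 = f e0 := by rw [hhy, if_neg he0]
        have h6 : hy (insert e0 S) e0 = g e0 := by rw [hhy, if_pos (mem_insert_self _ _)]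
        rw [h5, h6]
        unfold tr
        split_ifs <;> ring
      have h4 : GS Z E f - GS Z E (hy (insert e0 S)) =
          (GS Z E f - GS Z E (hy S)) + (GS Z E (hy S) - GS Z E (hy (insert e0 S))) := by ring
      rw [h4]
      refine (abs_add_le _ _).trans ?_
      rw [h3, card_insert_of_notMem he0]
      push_cast
      have := add_le_add h1 h2
      refine this.trans (le_of_eq ?_)
      ring
  have h := key E (Subset.refl _)
  have : GS Z E (hy E) = GS Z E g := by
    unfold GS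
    refine sum_congr rfl fun x _ => prod_congr rfl fun e he => ?_
    rw [hhy, if_pos he]
  rwa [this] at h

end Pool.Agent.Zk78.SP
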