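import Mathlib
import Pool.Agent.Zk78.SP.Graph

/-!
# Local densities
-/

set_option autoImplicit false

open Finset

namespace Pool.Agent.Zk78.SP

/-- the bad residues -/
def Qp {n : ℕ} (E : Finset (Fin n × Fin n)) (D : ℕ) (s : Fin n × Fin n → ℤ) (p : ℕ)
    (r : Fin n → ZMod p) : Prop :=
  ∃ e ∈ E, (D : ZMod p) * (r e.1 - r e.2) + ((s e : ℤ) : ZMod p) = 0

open Classical in
/-- the density of the bad residues -/
noncomputable def gp {n : ℕ} (E : Finset (Fin n × Fin n)) (D : ℕ) (s : Fin n × Fin n → ℤ)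
    (p : ℕ) : ℝ :=
  (Nat.card {r : Fin n → ZMod p // Qp E D s p r} : ℝ) / (p : ℝ) ^ n

section

variable {n : ℕ} {E : Finset (Fin n × Fin n)} {D : ℕ} {s : Fin n × Fin n → ℤ} {p : ℕ}

open Classical in
/-- indicator of one condition -/
noncomputable def ind (D : ℕ) (s : Fin n × Fin n → ℤ) (p : ℕ) (e : Fin n × Fin n)
    (r : Fin n → ZMod p) : ℝ :=
  if (D : ZMod p) * (r e.1 - r e.2) + ((s e : ℤ) : ZMod p) = 0 then 1 else 0

open Classical in
theorem gp_eq (hp : p.Prime) : haveI : NeZero p := ⟨hp.ne_zero⟩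
    gp E D s p = (∑ r : Fin n → ZMod p, if Qp E D s p r then (1 : ℝ) else 0) / (p : ℝ) ^ n := by
  haveI : NeZero p := ⟨hp.ne_zero⟩
  unfold gp
  rw [Nat.card_eq_fintype_card, Fintype.card_subtype, card_filter]
  push_cast
  rfl

theorem gp_nonneg : 0 ≤ gp E D s p := by
  unfold gp
  positivity

theorem gp_le_one (hp : p.Prime) : gp E D s p ≤ 1 := by
  classical
  haveI : NeZero p := ⟨hp.ne_zero⟩
  rw [gp_eq hp, div_le_one (by have := hp.pos; positivity)]
  calc _ ≤ ∑ r : Fin n → ZMod p, (1 : ℝ) := sum_le_sum fun r _ => by split_ifs <;> norm_num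
    _ = _ := by
      rw [sum_const, nsmul_eq_mul, mul_one, card_univ, Fintype.card_fun, ZMod.card,
        Fintype.card_fin]
      push_cast
      rfl

theorem unitD (hp : p.Prime) (hD : ¬ p ∣ D) : (D : ZMod p) ≠ 0 := by
  rw [Ne, ZMod.natCast_eq_zero_iff]
  exact hD

open Classical in
theorem one_sol (hp : p.Prime) (hD : ¬ p ∣ D) (a c : ZMod p) : haveI : NeZero p := ⟨hp.ne_zero⟩
    ∑ u : ZMod p, (if (D : ZMod p) * (u - a) + c = 0 then (1 : ℝ) else 0) = 1 := by
  haveI : NeZero p := ⟨hp.ne_zero⟩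
  haveI : Fact p.Prime := ⟨hp⟩
  have hu := unitD hp hD
  have h : ∀ u : ZMod p, ((D : ZMod p) * (u - a) + c = 0) ↔ u = a - c / D := by
    intro u
    constructor
    · intro h1
      have : u = ((D : ZMod p) * (u - a) + c - c) / D + a := by
        field_simp
        ring
      rw [this, h1]
      field_simp
      ring
    · intro h1
      rw [h1]
      field_simp
      ring
  simp only [h]
  rw [sum_ite_eq' univ]
  simp

open Classical in
theorem one_sol' (hp : p.Prime) (hD : ¬ p ∣ D) (a c : ZMod p) : haveI : NeZero p := ⟨hp.ne_zero⟩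
    ∑ u : ZMod p, (if (D : ZMod p) * (a - u) + c = 0 then (1 : ℝ) else 0) = 1 := by
  haveI : NeZero p := ⟨hp.ne_zero⟩
  refine Eq.trans (sum_congr rfl fun u _ => ?_) (one_sol hp hD a (-c))
  have : ((D : ZMod p) * (a - u) + c = 0) ↔ ((D : ZMod p) * (u - a) + -c = 0) := by
    constructor
    · intro h1
      linear_combination -h1
    · intro h1
      linear_combination -h1
  by_cases h2 : (D : ZMod p) * (a - u) + c = 0
  · rw [if_pos h2, if_pos (this.1 h2)]
  · rw [if_neg h2, if_neg (fun h3 => h2 (this.2 h3))]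

/-- one condition, a new coordinate -/
theorem ind_update (hp : p.Prime) (hD : ¬ p ∣ D) (e : Fin n × Fin n) (he : e.1 ≠ e.2)
    (k : Fin n) (hk : k = e.1 ∨ k = e.2) (r : Fin n → ZMod p) : haveI : NeZero p := ⟨hp.ne_zero⟩
    ∑ u : ZMod p, ind D s p e (Function.update r k u) = 1 := by
  haveI : NeZero p := ⟨hp.ne_zero⟩
  unfold ind
  rcases hk with rfl | rfl
  · simp only [Function.update_self, Function.update_of_ne he.symm]
    exact one_sol hp hD _ _
  · simp only [Function.update_self, Function.update_of_ne he]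
    exact one_sol' hp hD _ _

theorem sum_ind (hp : p.Prime) (hD : ¬ p ∣ D) (e : Fin n × Fin n) (he : e.1 ≠ e.2) :
    haveI : NeZero p := ⟨hp.ne_zero⟩
    (p : ℝ) * ∑ r : Fin n → ZMod p, ind D s p e r = (p : ℝ) ^ n := by
  haveI : NeZero p := ⟨hp.ne_zero⟩
  have h := sum_update_univ (R := ℝ) (α := ZMod p) e.1 (fun r : Fin n → ZMod p => ind D s p e r)
  rw [ZMod.card] at h
  rw [← h]
  simp only [ind_update hp hD e he e.1 (Or.inl rfl)]
  rw [sum_const, nsmul_eq_mul, mul_one, card_univ, Fintype.card_fun, ZMod.card, Fintype.card_fin]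
  push_cast
  rfl

theorem sum_ind2 (hp : p.Prime) (hD : ¬ p ∣ D) (hE : Simp E) (e e' : Fin n × Fin n) (he : e ∈ E)
    (he' : e' ∈ E) (hne : e ≠ e') : haveI : NeZero p := ⟨hp.ne_zero⟩
    (p : ℝ) ^ 2 * ∑ r : Fin n → ZMod p, ind D s p e r * ind D s p e' r = (p : ℝ) ^ n := by
  haveI : NeZero p := ⟨hp.ne_zero⟩
  have hs := hE e he
  have hs' := hE e' he'
  obtain ⟨k, hk1, hk2, hk3⟩ : ∃ k, (k = e'.1 ∨ k = e'.2) ∧ k ≠ e.1 ∧ k ≠ e.2 := by
    by_cases h1 : e'.1 = e.1
    · refine ⟨e'.2, Or.inr rfl, fun h => hs'.1 (h1.trans h.symm), fun h => hne ?_⟩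
      exact Prod.ext h1.symm h.symm
    · by_cases h2 : e'.1 = e.2
      · refine ⟨e'.2, Or.inr rfl, fun h => hs.2 ?_, fun h => hs'.1 (h2.trans h.symm)⟩
        have : (e.2, e.1) = e' := Prod.ext h2.symm h.symm
        rw [this]
        exact he'
      · exact ⟨e'.1, Or.inl rfl, h1, h2⟩
  have h := sum_update_univ (R := ℝ) (α := ZMod p) k
    (fun r : Fin n → ZMod p => ind D s p e r * ind D s p e' r)
  rw [ZMod.card] at h
  have h2 : ∀ (r : Fin n → ZMod p) (u : ZMod p),
      ind D s p e (Function.update r k u) = ind D s p e r := by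
    intro r u
    unfold ind
    rw [Function.update_of_ne hk2.symm, Function.update_of_ne hk3.symm]
  simp only [h2, ← mul_sum, ind_update hp hD e' hs'.1 k hk1, mul_one] at h
  have h3 := sum_ind (s := s) hp hD e hs.1
  rw [sq, mul_assoc, ← h, h3]

/-- union bound -/
theorem gp_le (hp : p.Prime) (hD : ¬ p ∣ D) (hE : Simp E) : gp E D s p ≤ E.card / p := by
  classical
  haveI : NeZero p := ⟨hp.ne_zero⟩
  have hp0 : (0 : ℝ) < p := by exact_mod_cast hp.pos
  rw [gp_eq hp, div_le_div_iff₀ (by positivity) hp0]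
  have h1 : ∀ r : Fin n → ZMod p, (if Qp E D s p r then (1 : ℝ) else 0) ≤ ∑ e ∈ E, ind D s p e r := by
    intro r
    split_ifs with h
    · obtain ⟨e, he, h2⟩ := h
      have h3 : ind D s p e r = 1 := by unfold ind; rw [if_pos h2]
      rw [← h3]
      exact single_le_sum (f := fun e => ind D s p e r)
        (fun e _ => by unfold ind; split_ifs <;> norm_num) he
    · exact sum_nonneg fun e _ => by unfold ind; split_ifs <;> norm_num
  have h2 : ∑ r : Fin n → ZMod p, (if Qp E D s p r then (1 : ℝ) else 0) ≤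
      ∑ e ∈ E, ∑ r : Fin n → ZMod p, ind D s p e r := by
    rw [sum_comm]
    exact sum_le_sum fun r _ => h1 r
  calc _ ≤ (∑ e ∈ E, ∑ r : Fin n → ZMod p, ind D s p e r) * p :=
        mul_le_mul_of_nonneg_right h2 hp0.le
    _ = ∑ e ∈ E, (p : ℝ) * ∑ r : Fin n → ZMod p, ind D s p e r := by
        rw [sum_mul]
        exact sum_congr rfl fun e _ => mul_comm _ _
    _ = ∑ e ∈ E, (p : ℝ) ^ n := sum_congr rfl fun e he => sum_ind hp hD e (hE e he).1
    _ = _ := by rw [sum_const, nsmul_eq_mul]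

/-- second order bound -/
theorem gp_ge (hp : p.Prime) (hD : ¬ p ∣ D) (hE : Simp E) :
    (E.card : ℝ) / p - (E.card : ℝ) ^ 2 / (p : ℝ) ^ 2 ≤ gp E D s p := by
  classical
  haveI : NeZero p := ⟨hp.ne_zero⟩
  have hp0 : (0 : ℝ) < p := by exact_mod_cast hp.pos
  have h1 : ∀ r : Fin n → ZMod p, ∑ e ∈ E, ind D s p e r -
      ∑ e ∈ E, ∑ e' ∈ E.erase e, ind D s p e r * ind D s p e' r ≤
      (if Qp E D s p r then (1 : ℝ) else 0) := by
    intro r
    set F := E.filter (fun e => (D : ZMod p) * (r e.1 - r e.2) + ((s e : ℤ) : ZMod p) = 0) with hF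
    have e1 : ∑ e ∈ E, ind D s p e r = F.card := by
      unfold ind
      rw [hF, ← sum_filter, sum_const, nsmul_eq_mul, mul_one]
    have e2 : ∑ e ∈ E, ∑ e' ∈ E.erase e, ind D s p e r * ind D s p e' r =
        (F.card : ℝ) * F.card - F.card := by
      have : ∀ e ∈ E, ∑ e' ∈ E.erase e, ind D s p e r * ind D s p e' r =
          ind D s p e r * (F.card) - ind D s p e r := by
        intro e he
        rw [← mul_sum, ← e1, ← add_sum_erase E (fun e => ind D s p e r) he]
        have hsq : ind D s p e r * ind D s p e r = ind D s p e r := by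
          unfold ind; split_ifs <;> norm_num
        linear_combination (-1 : ℝ) * hsq
      rw [sum_congr rfl this, sum_sub_distrib, ← sum_mul, e1]
    rw [e1, e2]
    have hc : F.card = 0 ∨ F.card = 1 ∨ 2 ≤ F.card := by omega
    have hq : 0 < F.card → Qp E D s p r := by
      intro h
      obtain ⟨e, he⟩ := card_pos.1 h
      rw [hF, mem_filter] at he
      exact ⟨e, he.1, he.2⟩
    rcases hc with h | h | h
    · rw [h]; split_ifs <;> norm_num
    · rw [if_pos (hq (by omega)), h]; norm_num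
    · rw [if_pos (hq (by omega))]
      have : (2 : ℝ) ≤ F.card := by exact_mod_cast h
      nlinarith
  have h2 : ∑ e ∈ E, ∑ r : Fin n → ZMod p, ind D s p e r -
      ∑ e ∈ E, ∑ e' ∈ E.erase e, ∑ r : Fin n → ZMod p, ind D s p e r * ind D s p e' r ≤
      ∑ r : Fin n → ZMod p, (if Qp E D s p r then (1 : ℝ) else 0) := by
    have := sum_le_sum fun r (_ : r ∈ (univ : Finset (Fin n → ZMod p))) => h1 r
    rw [sum_sub_distrib, sum_comm] at this
    refine le_trans (le_of_eq ?_) this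
    congr 1
    rw [sum_comm]
    refine sum_congr rfl fun e _ => ?_
    rw [sum_comm]
  have h3 : ∑ e ∈ E, ∑ r : Fin n → ZMod p, ind D s p e r = E.card * ((p : ℝ) ^ n / p) := by
    rw [sum_congr rfl (g := fun _ => (p : ℝ) ^ n / p), sum_const, nsmul_eq_mul]
    intro e he
    rw [eq_div_iff hp0.ne', mul_comm]
    exact sum_ind hp hD e (hE e he).1
  have h4 : ∑ e ∈ E, ∑ e' ∈ E.erase e, ∑ r : Fin n → ZMod p, ind D s p e r * ind D s p e' r ≤
      (E.card : ℝ) ^ 2 * ((p : ℝ) ^ n / (p : ℝ) ^ 2) := by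
    calc _ = ∑ e ∈ E, ∑ _e' ∈ E.erase e, (p : ℝ) ^ n / (p : ℝ) ^ 2 := by
          refine sum_congr rfl fun e he => sum_congr rfl fun e' he' => ?_
          rw [mem_erase] at he'
          rw [eq_div_iff (by positivity), mul_comm]
          exact sum_ind2 hp hD hE e e' he he'.2 he'.1.symm
      _ ≤ ∑ _e ∈ E, (E.card : ℝ) * ((p : ℝ) ^ n / (p : ℝ) ^ 2) := by
          refine sum_le_sum fun e he => ?_
          rw [sum_const, nsmul_eq_mul]
          refine mul_le_mul_of_nonneg_right ?_ (by positivity)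
          exact_mod_cast card_le_card (erase_subset _ _)
      _ = _ := by rw [sum_const, nsmul_eq_mul]; ring
  rw [gp_eq hp, le_div_iff₀ (by positivity)]
  refine le_trans ?_ h2
  rw [h3]
  have h5 : ((E.card : ℝ) / p - (E.card : ℝ) ^ 2 / (p : ℝ) ^ 2) * (p : ℝ) ^ n =
      E.card * ((p : ℝ) ^ n / p) - (E.card : ℝ) ^ 2 * ((p : ℝ) ^ n / (p : ℝ) ^ 2) := by
    ring
  rw [h5]
  linarith

end

end Pool.Agent.Zk78.SP
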