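import Mathlib
import Pool.Agent.Zk78.SP.Loc

/-!
# Counting in a box, periodic conditions modulo a set of primes
-/

set_option autoImplicit false

open Finset

namespace Pool.Agent.Zk78.SP

/-- an interval and a progression -/
theorem cnt_ap (u M q : ℕ) (hq : 0 < q) (v : ZMod q) :
    M / q ≤ ((Ioc u (u + M)).filter (fun x : ℕ => (x : ZMod q) = v)).card ∧
    ((Ioc u (u + M)).filter (fun x : ℕ => (x : ZMod q) = v)).card ≤ M / q + 1 := by
  haveI : NeZero q := ⟨hq.ne'⟩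
  have h1 : (Ioc u (u + M)).filter (fun x : ℕ => (x : ZMod q) = v) =
      (Ioc u (u + M)).filter (fun x : ℕ => x ≡ v.val [MOD q]) := by
    apply filter_congr
    intro x _
    rw [← ZMod.natCast_eq_natCast_iff, ZMod.natCast_zmod_val]
  have h2 := Nat.Ioc_filter_modEq_card u (u + M) hq v.val
  rw [h1]
  set c := ((Ioc u (u + M)).filter (fun x : ℕ => x ≡ v.val [MOD q])).card with hc
  have hq0 : (0 : ℚ) < q := by exact_mod_cast hq
  set X : ℚ := ((u : ℚ) - v.val) / (q : ℚ) with hX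
  have h3 : (((u + M : ℕ) : ℚ) - v.val) / (q : ℚ) = X + M / q := by
    rw [hX]; push_cast; ring
  rw [h3] at h2
  have h4 : ((M / q : ℕ) : ℚ) ≤ (M : ℚ) / q := Nat.cast_div_le
  have h5 : (M : ℚ) / q < ((M / q : ℕ) : ℚ) + 1 := by
    rw [div_lt_iff₀ hq0]
    have := Nat.lt_mul_div_succ M hq
    have h6 : (M : ℚ) < ((q * (M / q + 1) : ℕ) : ℚ) := by exact_mod_cast this
    generalize M / q = t at h6 ⊢
    push_cast at h6
    linarith
  generalize M / q = t at h4 h5 ⊢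
  have h6 : ⌊X⌋ + (t : ℤ) ≤ ⌊X + M / q⌋ := by
    rw [Int.le_floor]
    push_cast
    have := Int.floor_le X
    linarith
  have h7 : ⌊X + M / q⌋ ≤ ⌊X⌋ + (t : ℤ) + 1 := by
    have h8 : ⌊X + M / q⌋ < ⌊X⌋ + (t : ℤ) + 2 := by
      rw [Int.floor_lt]
      push_cast
      have := Int.lt_floor_add_one X
      linarith
    omega
  have h8 : ((c : ℕ) : ℤ) = max (⌊X + (M : ℚ) / q⌋ - ⌊X⌋) 0 := h2
  have h9 : (0 : ℤ) ≤ ⌊X + (M : ℚ) / q⌋ - ⌊X⌋ := by omega
  rw [max_eq_left h9] at h8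
  omega

theorem pow_succ_sub (t : ℝ) (ht : 0 ≤ t) (n : ℕ) :
    (t + 1) ^ n - t ^ n ≤ n * (t + 1) ^ (n - 1) := by
  induction n with
  | zero => simp
  | succ n ih =>
    rcases Nat.eq_zero_or_pos n with h | h
    · subst h; simp
    · have e1 : (t + 1) ^ (n + 1) - t ^ (n + 1) = (t + 1) * ((t + 1) ^ n - t ^ n) + t ^ n := by ring
      have e2 : (t + 1) ^ n = (t + 1) * (t + 1) ^ (n - 1) := by
        rw [← pow_succ']; congr 1; omega
      rw [e1, Nat.add_sub_cancel]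
      have h1 := mul_le_mul_of_nonneg_left ih (show 0 ≤ t + 1 by linarith)
      have h2 : t ^ n ≤ (t + 1) ^ n := pow_le_pow_left₀ ht (by linarith) n
      have h3 : (t + 1) * (n * (t + 1) ^ (n - 1)) = n * (t + 1) ^ n := by rw [e2]; ring
      rw [h3] at h1
      push_cast
      linarith

/-- the modulus of a set of primes -/
def qS (S : Finset ℕ) : ℕ := ∏ p : S, (p : ℕ)

theorem qS_eq (S : Finset ℕ) : qS S = ∏ p ∈ S, p := by
  unfold qS
  exact Finset.prod_coe_sort S (fun p => p)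

/-- the Chinese remainder theorem -/
noncomputable def crt (S : Finset ℕ) (hS : ∀ p ∈ S, p.Prime) :
    ZMod (qS S) ≃+* ((p : S) → ZMod (p : ℕ)) :=
  ZMod.prodEquivPi (fun p : S => (p : ℕ)) (fun p p' h =>
    (Nat.coprime_primes (hS p p.2) (hS p' p'.2)).2 (fun h2 => h (Subtype.ext h2)))

theorem crt_natCast (S : Finset ℕ) (hS : ∀ p ∈ S, p.Prime) (x : ℕ) (p : S) :
    crt S hS (x : ZMod (qS S)) p = (x : ZMod (p : ℕ)) := by
  rw [map_natCast]
  rfl

open Classical in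
/-- the good residues -/
theorem card_good {n : ℕ} (S : Finset ℕ) (hS : ∀ p ∈ S, p.Prime)
    (Q : (p : ℕ) → (Fin n → ZMod p) → Prop) :
    Nat.card {r : Fin n → ZMod (qS S) // ∀ p : S, Q p (fun i => crt S hS (r i) p)} =
      ∏ p ∈ S, Nat.card {r : Fin n → ZMod p // Q p r} := by
  set e : (Fin n → ZMod (qS S)) ≃ ((p : S) → (Fin n → ZMod (p : ℕ))) :=
    (Equiv.piCongrRight fun _ => (crt S hS).toEquiv).trans (Equiv.piComm _) with he
  have h1 : Nat.card {r : Fin n → ZMod (qS S) // ∀ p : S, Q p (fun i => crt S hS (r i) p)} =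
      Nat.card {r : (p : S) → (Fin n → ZMod (p : ℕ)) // ∀ p : S, Q p (r p)} := by
    apply Nat.card_congr
    exact e.subtypeEquiv (fun r => Iff.rfl)
  rw [h1]
  have h2 : Nat.card {r : (p : S) → (Fin n → ZMod (p : ℕ)) // ∀ p : S, Q p (r p)} =
      Nat.card ((p : S) → {r : Fin n → ZMod (p : ℕ) // Q p r}) :=
    Nat.card_congr Equiv.subtypePiEquivPi
  rw [h2]
  haveI : ∀ p : S, NeZero (p : ℕ) := fun p => ⟨(hS p p.2).ne_zero⟩
  rw [Nat.card_pi]
  exact Finset.prod_coe_sort S (fun p => Nat.card {r : Fin n → ZMod p // Q p r})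

open Classical in
/-- counting in a box -/
theorem box_count {n : ℕ} (S : Finset ℕ) (hS : ∀ p ∈ S, p.Prime)
    (Q : (p : ℕ) → (Fin n → ZMod p) → Prop) (u : Fin n → ℕ) (M : ℕ) :
    |((((Fintype.piFinset fun i => Ioc (u i) (u i + M)).filter
      (fun x : Fin n → ℕ => ∀ p ∈ S, Q p (fun i => (x i : ZMod p)))).card : ℕ) : ℝ) -
      (M : ℝ) ^ n * ∏ p ∈ S, ((Nat.card {r : Fin n → ZMod p // Q p r} : ℝ) / (p : ℝ) ^ n)| ≤
      n * (∏ p ∈ S, (p : ℝ)) * ((M : ℝ) + ∏ p ∈ S, (p : ℝ)) ^ (n - 1) := by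
  have hq : 0 < qS S := by
    rw [qS_eq]
    exact prod_pos fun p hp => (hS p hp).pos
  haveI : NeZero (qS S) := ⟨hq.ne'⟩
  have hqr : ∏ p ∈ S, (p : ℝ) = (qS S : ℝ) := by
    rw [qS_eq]; push_cast; rfl
  rw [hqr]
  set q := qS S with hqd
  have hq0 : (0 : ℝ) < q := by exact_mod_cast hq
  set G : Finset (Fin n → ZMod q) :=
    univ.filter (fun r => ∀ p : S, Q p (fun i => crt S hS (r i) p)) with hG
  have hGc : (G.card : ℝ) = ∏ p ∈ S, (Nat.card {r : Fin n → ZMod p // Q p r} : ℝ) := by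
    have h1 := card_good S hS Q
    rw [Nat.card_eq_fintype_card, Fintype.card_subtype] at h1
    rw [hG]
    have h2 : (((univ.filter (fun r : Fin n → ZMod q =>
      ∀ p : S, Q p (fun i => crt S hS (r i) p))).card : ℕ) : ℝ) =
      ((∏ p ∈ S, Nat.card {r : Fin n → ZMod p // Q p r} : ℕ) : ℝ) := by
      rw [← h1]
    rw [h2]
    push_cast
    rfl
  have hGle : (G.card : ℝ) ≤ (q : ℝ) ^ n := by
    have : G.card ≤ Fintype.card (Fin n → ZMod q) := card_le_univ _
    rw [Fintype.card_fun, ZMod.card, Fintype.card_fin] at this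
    exact_mod_cast this
  -- the count by residues
  have hcnt : ((Fintype.piFinset fun i => Ioc (u i) (u i + M)).filter
      (fun x : Fin n → ℕ => ∀ p ∈ S, Q p (fun i => (x i : ZMod p)))).card =
      ∑ r ∈ G, ∏ i, ((Ioc (u i) (u i + M)).filter (fun x : ℕ => (x : ZMod q) = r i)).card := by
    rw [card_eq_sum_card_fiberwise (f := fun x : Fin n → ℕ => fun i => (x i : ZMod q)) (t := G)]
    · refine sum_congr rfl fun r hr => ?_
      rw [← Fintype.card_piFinset]
      congr 1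
      ext x
      rw [mem_filter, mem_filter, Fintype.mem_piFinset, Fintype.mem_piFinset]
      rw [hG, mem_filter] at hr
      constructor
      · rintro ⟨⟨h1, h2⟩, h3⟩ i
        rw [mem_filter]
        exact ⟨h1 i, congrFun h3 i⟩
      · intro h
        simp only [mem_filter] at h
        refine ⟨⟨fun i => (h i).1, fun p hp => ?_⟩, funext fun i => (h i).2⟩
        have h4 := hr.2 ⟨p, hp⟩
        have h5 : (fun i => crt S hS (r i) ⟨p, hp⟩) = fun i => (x i : ZMod p) := by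
          funext i
          rw [← (h i).2, crt_natCast]
        rwa [h5] at h4
    · intro x hx
      have hx' := (mem_filter.1 (mem_coe.1 hx)).2
      rw [mem_coe, hG, mem_filter]
      refine ⟨mem_univ _, fun p => ?_⟩
      have h5 : (fun i => crt S hS ((fun i => (x i : ZMod q)) i) p) =
          fun i => (x i : ZMod (p : ℕ)) := by
        funext i
        exact crt_natCast S hS (x i) p
      rw [h5]
      exact hx' p p.2
  set t : ℕ := M / q with ht
  have hc1 : ∀ r : Fin n → ZMod q, ((t : ℝ)) ^ n ≤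
      ((∏ i, ((Ioc (u i) (u i + M)).filter (fun x : ℕ => (x : ZMod q) = r i)).card : ℕ) : ℝ) := by
    intro r
    have : t ^ n ≤ ∏ i, ((Ioc (u i) (u i + M)).filter (fun x : ℕ => (x : ZMod q) = r i)).card := by
      calc t ^ n = ∏ _i : Fin n, t := by rw [prod_const, card_univ, Fintype.card_fin]
        _ ≤ _ := prod_le_prod' fun i _ => (cnt_ap (u i) M q hq (r i)).1
    exact_mod_cast this
  have hc2 : ∀ r : Fin n → ZMod q,
      ((∏ i, ((Ioc (u i) (u i + M)).filter (fun x : ℕ => (x : ZMod q) = r i)).card : ℕ) : ℝ) ≤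
      ((t : ℝ) + 1) ^ n := by
    intro r
    have : ∏ i, ((Ioc (u i) (u i + M)).filter (fun x : ℕ => (x : ZMod q) = r i)).card ≤
        (t + 1) ^ n := by
      calc _ ≤ ∏ _i : Fin n, (t + 1) := prod_le_prod' fun i _ => (cnt_ap (u i) M q hq (r i)).2
        _ = _ := by rw [prod_const, card_univ, Fintype.card_fin]
    exact_mod_cast this
  have ht1 : (t : ℝ) ≤ (M : ℝ) / q := by rw [ht]; exact Nat.cast_div_le
  have ht2 : (M : ℝ) / q ≤ t + 1 := by
    rw [div_le_iff₀ hq0]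
    have := (Nat.lt_mul_div_succ M hq).le
    have h6 : (M : ℝ) ≤ ((q * (M / q + 1) : ℕ) : ℝ) := by exact_mod_cast this
    push_cast at h6
    rw [ht]
    push_cast
    linarith
  have hMq : (M : ℝ) ^ n * ∏ p ∈ S, ((Nat.card {r : Fin n → ZMod p // Q p r} : ℝ) / (p : ℝ) ^ n) =
      G.card * ((M : ℝ) / q) ^ n := by
    rw [prod_div_distrib, ← hGc, prod_pow, hqr, div_pow]
    field_simp
  rw [hMq, hcnt]
  have e1 : ((∑ r ∈ G, ∏ i, ((Ioc (u i) (u i + M)).filter
      (fun x : ℕ => (x : ZMod q) = r i)).card : ℕ) : ℝ) =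
      ∑ r ∈ G, ((∏ i, ((Ioc (u i) (u i + M)).filter
      (fun x : ℕ => (x : ZMod q) = r i)).card : ℕ) : ℝ) := by
    push_cast; rfl
  rw [e1]
  have lo : (G.card : ℝ) * (t : ℝ) ^ n ≤ ∑ r ∈ G, ((∏ i, ((Ioc (u i) (u i + M)).filter
      (fun x : ℕ => (x : ZMod q) = r i)).card : ℕ) : ℝ) := by
    rw [← nsmul_eq_mul, ← sum_const]
    exact sum_le_sum fun r _ => hc1 r
  have up : ∑ r ∈ G, ((∏ i, ((Ioc (u i) (u i + M)).filter
      (fun x : ℕ => (x : ZMod q) = r i)).card : ℕ) : ℝ) ≤ (G.card : ℝ) * ((t : ℝ) + 1) ^ n := by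
    rw [← nsmul_eq_mul, ← sum_const]
    exact sum_le_sum fun r _ => hc2 r
  have ht0 : (0 : ℝ) ≤ t := Nat.cast_nonneg _
  have m1 : (G.card : ℝ) * (t : ℝ) ^ n ≤ G.card * ((M : ℝ) / q) ^ n :=
    mul_le_mul_of_nonneg_left (pow_le_pow_left₀ ht0 ht1 n) (Nat.cast_nonneg _)
  have m2 : (G.card : ℝ) * ((M : ℝ) / q) ^ n ≤ G.card * ((t : ℝ) + 1) ^ n :=
    mul_le_mul_of_nonneg_left (pow_le_pow_left₀ (by positivity) ht2 n) (Nat.cast_nonneg _)
  have d1 : (G.card : ℝ) * ((t : ℝ) + 1) ^ n - G.card * (t : ℝ) ^ n ≤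
      n * (q : ℝ) * ((M : ℝ) + q) ^ (n - 1) := by
    rcases Nat.eq_zero_or_pos n with h0 | h0
    · subst h0; simp
    have h1 := pow_succ_sub t ht0 n
    have h2 : 0 ≤ ((t : ℝ) + 1) ^ n - (t : ℝ) ^ n := by
      have := pow_le_pow_left₀ ht0 (by linarith : (t : ℝ) ≤ t + 1) n
      linarith
    calc (G.card : ℝ) * ((t : ℝ) + 1) ^ n - G.card * (t : ℝ) ^ n =
          G.card * (((t : ℝ) + 1) ^ n - (t : ℝ) ^ n) := by ring
      _ ≤ (q : ℝ) ^ n * (n * ((t : ℝ) + 1) ^ (n - 1)) := mul_le_mul hGle h1 h2 (by positivity)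
      _ = n * q * (q * ((t : ℝ) + 1)) ^ (n - 1) := by
          have : (q : ℝ) ^ n = q * (q : ℝ) ^ (n - 1) := by
            rw [← pow_succ']; congr 1; omega
          rw [this, mul_pow]
          ring
      _ ≤ _ := by
          refine mul_le_mul_of_nonneg_left (pow_le_pow_left₀ (by positivity) ?_ _) (by positivity)
          have h3 : (t : ℝ) * q ≤ M := by rwa [le_div_iff₀ hq0] at ht1
          linarith
  rw [abs_le]
  constructor <;> linarith

end Pool.Agent.Zk78.SP
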