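import Mathlib
import Pool.Agent.Zk78.SP.Box
import Pool.Agent.H373R2.T7.SupE2

/-!
# The sieve for the graph sums of the model
-/

set_option autoImplicit false

open Finset

namespace Pool.Agent.Zk78.SP

open Pool.Agent.H373R2.T7

theorem one_sub_ge (x : ℝ) (h0 : 0 ≤ x) (h1 : x ≤ 1 / 2) :
    Real.exp (-x - 2 * x ^ 2) ≤ 1 - x := by
  have hx : 0 < 1 - x := by linarith
  have h2 : Real.exp (-(x / (1 - x))) ≤ 1 - x := by
    rw [Real.exp_neg, inv_le_comm₀ (Real.exp_pos _) hx]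
    have h3 := Real.add_one_le_exp (x / (1 - x))
    have h4 : x / (1 - x) + 1 = (1 - x)⁻¹ := by
      field_simp
      ring
    rw [← h4]
    exact h3
  refine (Real.exp_le_exp.2 ?_).trans h2
  have h3 : x / (1 - x) ≤ x + 2 * x ^ 2 := by
    rw [div_le_iff₀ hx]
    have : 0 ≤ x ^ 2 * (1 - 2 * x) := mul_nonneg (sq_nonneg x) (by linarith)
    nlinarith
  linarith

theorem sum_sq_le (z : ℕ) : ∑ p ∈ pz z, 1 / (p : ℝ) ^ 2 ≤ 1 := by
  have h1 : ∀ z : ℕ, 1 ≤ z → ∑ n ∈ Icc 2 z, 1 / (n : ℝ) ^ 2 ≤ 1 - 1 / (z : ℝ) := by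
    intro z hz
    induction z, hz using Nat.le_induction with
    | base => simp
    | succ z hz ih =>
      rw [sum_Icc_succ_top (by omega)]
      have hz0 : (0 : ℝ) < z := by exact_mod_cast hz
      have h2 : 1 / ((z + 1 : ℕ) : ℝ) ^ 2 ≤ 1 / (z : ℝ) - 1 / ((z + 1 : ℕ) : ℝ) := by
        push_cast
        rw [div_sub_div _ _ hz0.ne' (by positivity), div_le_div_iff₀ (by positivity) (by positivity)]
        nlinarith
      linarith
  rcases Nat.eq_zero_or_pos z with h | h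
  · subst h
    have : pz 0 = ∅ := by
      rw [eq_empty_iff_forall_notMem]
      intro p hp
      rw [mem_pz] at hp
      have := hp.2.two_le
      omega
    rw [this]
    simp
  · refine (sum_le_sum_of_subset_of_nonneg ?_ (fun _ _ _ => by positivity)).trans
      ((h1 z h).trans ?_)
    · intro p hp
      rw [mem_pz] at hp
      rw [mem_Icc]
      exact ⟨hp.2.two_le, hp.1⟩
    · have : (0 : ℝ) ≤ 1 / (z : ℝ) := by positivity
      linarith

/-- the primes of the sieve -/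
def TD (D z : ℕ) : Finset ℕ := (pz z).filter (fun p => ¬ p ∣ D)

section

variable {n : ℕ} (E : Finset (Fin n × Fin n)) (D : ℕ) (s : Fin n × Fin n → ℤ)

/-- the singular product -/
noncomputable def sing (z : ℕ) : ℝ := ((Vz z)⁻¹) ^ E.card * ∏ p ∈ TD D z, (1 - gp E D s p)

theorem sing_eq (z : ℕ) : sing E D s z =
    ∏ p ∈ pz z, (((1 - 1 / (p : ℝ))⁻¹) ^ E.card * (if p ∣ D then 1 else (1 - gp E D s p))) := by
  unfold sing Vz TD
  rw [prod_mul_distrib, prod_filter, ← prod_inv_distrib, prod_pow]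
  congr 1
  refine prod_congr rfl fun p _ => ?_
  by_cases h : p ∣ D <;> simp [h]

theorem sing_nonneg (z : ℕ) : 0 ≤ sing E D s z := by
  unfold sing
  refine mul_nonneg (pow_nonneg (inv_nonneg.2 (Vz_pos z).le) _) (prod_nonneg fun p hp => ?_)
  have := gp_le_one (E := E) (D := D) (s := s) (mem_pz.1 (mem_filter.1 hp).1).2
  linarith

theorem sing_upper (hE : Simp E) (hD : 0 < D) (z : ℕ) :
    sing E D s z ≤ ((2 : ℝ) ^ E.card) ^ D * Real.exp ((E.card : ℝ) ^ 2 + 2 * E.card) := by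
  rw [sing_eq]
  set m : ℝ := (E.card : ℝ) with hm
  have hm0 : 0 ≤ m := Nat.cast_nonneg _
  have h1 : ∀ p ∈ pz z, (((1 - 1 / (p : ℝ))⁻¹) ^ E.card *
      (if p ∣ D then 1 else (1 - gp E D s p))) ≤
      (if p ∣ D then (2 : ℝ) ^ E.card else 1) * Real.exp ((m ^ 2 + 2 * m) * (1 / (p : ℝ) ^ 2)) := by
    intro p hp
    rw [mem_pz] at hp
    have hp2 : (2 : ℝ) ≤ p := by exact_mod_cast hp.2.two_le
    have hp0 : (0 : ℝ) < p := by linarith
    have hx0 : 0 ≤ 1 / (p : ℝ) := by positivity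
    have hx1 : 1 / (p : ℝ) ≤ 1 / 2 := one_div_le_one_div_of_le (by norm_num) hp2
    have hpos : 0 < 1 - 1 / (p : ℝ) := by linarith
    split_ifs with hd
    · have e1 : (1 - 1 / (p : ℝ))⁻¹ ≤ 2 := by
        rw [inv_le_comm₀ hpos (by norm_num)]
        linarith
      have e2 : 1 ≤ Real.exp ((m ^ 2 + 2 * m) * (1 / (p : ℝ) ^ 2)) :=
        Real.one_le_exp (by positivity)
      rw [mul_one]
      calc ((1 - 1 / (p : ℝ))⁻¹) ^ E.card ≤ 2 ^ E.card :=
            pow_le_pow_left₀ (inv_nonneg.2 hpos.le) e1 _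
        _ ≤ 2 ^ E.card * Real.exp ((m ^ 2 + 2 * m) * (1 / (p : ℝ) ^ 2)) :=
            le_mul_of_one_le_right (by positivity) e2
    · have e1 := one_sub_ge (1 / (p : ℝ)) hx0 hx1
      have e2 : (1 - 1 / (p : ℝ))⁻¹ ≤ Real.exp (1 / (p : ℝ) + 2 * (1 / (p : ℝ)) ^ 2) := by
        rw [inv_le_comm₀ hpos (Real.exp_pos _), ← Real.exp_neg]
        refine le_trans (Real.exp_le_exp.2 ?_) e1
        linarith
      have e3 : ((1 - 1 / (p : ℝ))⁻¹) ^ E.card ≤
          Real.exp (m * (1 / (p : ℝ) + 2 * (1 / (p : ℝ)) ^ 2)) := by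
        refine (pow_le_pow_left₀ (inv_nonneg.2 hpos.le) e2 _).trans (le_of_eq ?_)
        rw [← Real.exp_nat_mul]
      have e4 : 1 - gp E D s p ≤ Real.exp (-(m / p) + m ^ 2 / (p : ℝ) ^ 2) := by
        have h2 := gp_ge (s := s) hp.2 hd hE
        have h3 := Real.add_one_le_exp (-(m / p) + m ^ 2 / (p : ℝ) ^ 2)
        linarith
      have e5 : 0 ≤ 1 - gp E D s p := by
        have := gp_le_one (E := E) (D := D) (s := s) hp.2
        linarith
      calc _ ≤ Real.exp (m * (1 / (p : ℝ) + 2 * (1 / (p : ℝ)) ^ 2)) *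
            Real.exp (-(m / p) + m ^ 2 / (p : ℝ) ^ 2) :=
            mul_le_mul e3 e4 e5 (Real.exp_pos _).le
        _ = _ := by
            rw [← Real.exp_add, one_mul]
            congr 1
            field_simp
            ring
  have h0 : ∀ p ∈ pz z, 0 ≤ (((1 - 1 / (p : ℝ))⁻¹) ^ E.card *
      (if p ∣ D then 1 else (1 - gp E D s p))) := by
    intro p hp
    rw [mem_pz] at hp
    have hp2 : (2 : ℝ) ≤ p := by exact_mod_cast hp.2.two_le
    have hx1 : 1 / (p : ℝ) ≤ 1 / 2 := one_div_le_one_div_of_le (by norm_num) hp2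
    refine mul_nonneg (pow_nonneg (inv_nonneg.2 (by linarith)) _) ?_
    split_ifs
    · norm_num
    · have := gp_le_one (E := E) (D := D) (s := s) hp.2
      linarith
  refine (prod_le_prod h0 h1).trans ?_
  rw [prod_mul_distrib, ← Real.exp_sum, ← mul_sum]
  have h2 : ∏ p ∈ pz z, (if p ∣ D then (2 : ℝ) ^ E.card else 1) ≤ ((2 : ℝ) ^ E.card) ^ D := by
    rw [← prod_filter, prod_const]
    refine pow_le_pow_right₀ (one_le_pow₀ (by norm_num)) ?_
    have : (pz z).filter (fun p => p ∣ D) ⊆ Icc 1 D := by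
      intro p hp
      rw [mem_filter, mem_pz] at hp
      rw [mem_Icc]
      exact ⟨hp.1.2.one_le, Nat.le_of_dvd hD hp.2⟩
    refine (card_le_card this).trans ?_
    simp
  have h3 : Real.exp ((m ^ 2 + 2 * m) * ∑ p ∈ pz z, 1 / (p : ℝ) ^ 2) ≤
      Real.exp (m ^ 2 + 2 * m) := by
    apply Real.exp_le_exp.2
    exact mul_le_of_le_one_right (by positivity) (sum_sq_le z)
  exact mul_le_mul h2 h3 (Real.exp_pos _).le (by positivity)

theorem sing_lower (hE : Simp E) (hD : ∀ p : ℕ, p.Prime → p < 2 * E.card → p ∣ D) (z : ℕ) :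
    Real.exp (-(2 * (E.card : ℝ) ^ 2)) ≤ sing E D s z := by
  rw [sing_eq]
  set m : ℝ := (E.card : ℝ) with hm
  have hm0 : 0 ≤ m := Nat.cast_nonneg _
  have h1 : ∀ p ∈ pz z, Real.exp (-(2 * m ^ 2) * (1 / (p : ℝ) ^ 2)) ≤
      (((1 - 1 / (p : ℝ))⁻¹) ^ E.card * (if p ∣ D then 1 else (1 - gp E D s p))) := by
    intro p hp
    rw [mem_pz] at hp
    have hp2 : (2 : ℝ) ≤ p := by exact_mod_cast hp.2.two_le
    have hp0 : (0 : ℝ) < p := by linarith
    have hx0 : 0 ≤ 1 / (p : ℝ) := by positivity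
    have hx1 : 1 / (p : ℝ) ≤ 1 / 2 := one_div_le_one_div_of_le (by norm_num) hp2
    have hpos : 0 < 1 - 1 / (p : ℝ) := by linarith
    split_ifs with hd
    · rw [mul_one]
      have e1 : (1 : ℝ) ≤ ((1 - 1 / (p : ℝ))⁻¹) ^ E.card := by
        apply one_le_pow₀
        rw [one_le_inv₀ hpos]
        linarith
      refine le_trans ?_ e1
      rw [Real.exp_le_one_iff]
      have : 0 ≤ (2 * m ^ 2) * (1 / (p : ℝ) ^ 2) := by positivity
      linarith
    · have hpm : m / p ≤ 1 / 2 := by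
        rw [div_le_iff₀ hp0]
        have : 2 * E.card ≤ p := by
          by_contra h
          exact hd (hD p hp.2 (by omega))
        have h3 : 2 * m ≤ p := by rw [hm]; exact_mod_cast this
        linarith
      have e1 : Real.exp (m / p) ≤ ((1 - 1 / (p : ℝ))⁻¹) ^ E.card := by
        have e2 : Real.exp (1 / (p : ℝ)) ≤ (1 - 1 / (p : ℝ))⁻¹ := by
          rw [le_inv_comm₀ (Real.exp_pos _) hpos, ← Real.exp_neg]
          have := Real.add_one_le_exp (-(1 / (p : ℝ)))
          linarith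
        refine le_trans (le_of_eq ?_) (pow_le_pow_left₀ (Real.exp_pos _).le e2 _)
        rw [← Real.exp_nat_mul]
        congr 1
        rw [hm]
        ring
      have e2 : Real.exp (-(m / p) - 2 * (m / p) ^ 2) ≤ 1 - gp E D s p := by
        refine (one_sub_ge (m / p) (by positivity) hpm).trans ?_
        have := gp_le (s := s) hp.2 hd hE
        linarith
      calc Real.exp (-(2 * m ^ 2) * (1 / (p : ℝ) ^ 2)) =
            Real.exp (m / p) * Real.exp (-(m / p) - 2 * (m / p) ^ 2) := by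
            rw [← Real.exp_add]
            congr 1
            field_simp
            ring
        _ ≤ _ := mul_le_mul e1 e2 (Real.exp_pos _).le (pow_nonneg (inv_nonneg.2 hpos.le) _)
  refine le_trans ?_ (prod_le_prod (fun p _ => (Real.exp_pos _).le) h1)
  rw [← Real.exp_sum, ← mul_sum]
  apply Real.exp_le_exp.2
  have := mul_le_of_le_one_right (show 0 ≤ 2 * m ^ 2 by positivity) (sum_sq_le z)
  linarith

end

/-- the condition of the sieve -/
def Rough {n : ℕ} (E : Finset (Fin n × Fin n)) (D : ℕ) (s : Fin n × Fin n → ℤ) (z : ℕ)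
    (x : Fin n → ℕ) : Prop :=
  ∀ p ∈ TD D z, ¬ Qp E D s p (fun i => (x i : ZMod p))

end Pool.Agent.Zk78.SP
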