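import Mathlib
import Pool.Agent.Zk78.SP.Sv

/-!
# The sieve in a box
-/

set_option autoImplicit false

open Finset

namespace Pool.Agent.Zk78.SP

open Pool.Agent.H373R2.T7

/-- the box with corners `u`, side `M` -/
def bxM {n : ℕ} (u : Fin n → ℕ) (M : ℕ) : Finset (Fin n → ℕ) :=
  Fintype.piFinset fun i => Ioc (u i) (u i + M)

open Classical in
/-- the sieve in a box -/
theorem sieve_box {n : ℕ} (E : Finset (Fin n × Fin n)) (hE : Simp E) (D : ℕ)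
    (s : Fin n × Fin n → ℤ) (E0 U : ℕ) : ∃ Z0 : ℕ, ∀ Z : ℕ, Z0 ≤ Z → ∀ z : ℕ, 1 ≤ z →
    (z : ℝ) ≤ Real.log Z ^ E0 → ∀ (u : Fin n → ℕ) (M : ℕ), M ≤ Z →
    |((((bxM u M).filter (fun x => Rough E D s z x)).card : ℕ) : ℝ) -
      (M : ℝ) ^ n * ∏ p ∈ TD D z, (1 - gp E D s p)| ≤ (Z : ℝ) ^ n / Real.log Z ^ U := by
  obtain ⟨N0, h0⟩ := choice E.card E0 (U + 1) 4
  obtain ⟨n1, h1⟩ := ev_log' U (2 * n * 2 ^ (n - 1))
  obtain ⟨n2, h2⟩ := ev_L' 4
  refine ⟨max (max N0 n1) (max n2 1), fun Z hZ z hz hzE u M hM => ?_⟩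
  have a0 := h0 Z (le_trans (le_trans (le_max_left _ _) (le_max_left _ _)) hZ) z hzE
  have a1 := h1 Z (le_trans (le_trans (le_max_right _ _) (le_max_left _ _)) hZ)
  have hL := h2 Z (le_trans (le_trans (le_max_left _ _) (le_max_right _ _)) hZ)
  have hZ1 : 1 ≤ Z := le_trans (le_trans (le_max_right _ _) (le_max_right _ _)) hZ
  have hZr : (1 : ℝ) ≤ Z := by exact_mod_cast hZ1
  have hZ0' : (0 : ℝ) < Z := by linarith
  have hMZ : (M : ℝ) ≤ Z := by exact_mod_cast hM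
  set L := Real.log Z with hLd
  have hL0 : 0 < L := by linarith
  obtain ⟨r, hr1, hr2, _⟩ := a0
  set T := TD D z with hT
  have hTz : T ⊆ pz z := filter_subset _ _
  have hTp : ∀ p ∈ T, p.Prime := fun p hp => (mem_pz.1 (hTz hp)).2
  set R : ℝ := n * ((z : ℝ) + 1) ^ r * ((Z : ℝ) + ((z : ℝ) + 1) ^ r) ^ (n - 1) with hRd
  have hR0 : 0 ≤ R := by positivity
  have key := sieve_gen' (bxM u M) (fun _ => (1 : ℝ)) (fun _ _ => zero_le_one)
    (fun p x => Qp E D s p (fun i => (x i : ZMod p))) T (fun p => gp E D s p) (fun p hp =>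
      ⟨gp_nonneg, gp_le_one (hTp p hp)⟩) ((M : ℝ) ^ n) (by positivity) (fun _ => R) r (by
      intro S hS hSr
      have hSp : ∀ p ∈ S, p.Prime := fun p hp => hTp p (hS hp)
      have h3 := box_count S hSp (fun p r => Qp E D s p r) u M
      have h4 : ∑ i ∈ bxM u M with ∀ p ∈ S, Qp E D s p (fun i_1 => ((i i_1 : ℕ) : ZMod p)),
          (1 : ℝ) = ((((Fintype.piFinset fun i => Ioc (u i) (u i + M)).filter
          (fun x : Fin n → ℕ => ∀ p ∈ S, Qp E D s p (fun i => (x i : ZMod p)))).card : ℕ) : ℝ) := by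
        rw [sum_const, nsmul_eq_mul, mul_one]
        rfl
      rw [h4]
      refine h3.trans ?_
      have h5 : ∏ p ∈ S, (p : ℝ) ≤ ((z : ℝ) + 1) ^ r := by
        have := prod_le_pow S z r (hS.trans hTz) hSr
        have h6 : ((∏ p ∈ S, p : ℕ) : ℝ) ≤ (((z + 1) ^ r : ℕ) : ℝ) := by exact_mod_cast this
        push_cast at h6
        exact h6
      have h6 : 0 ≤ ∏ p ∈ S, (p : ℝ) := prod_nonneg fun p _ => Nat.cast_nonneg _
      rw [hRd]
      apply mul_le_mul _ _ (by positivity) (by positivity)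
      · exact mul_le_mul_of_nonneg_left h5 (Nat.cast_nonneg _)
      · exact pow_le_pow_left₀ (by positivity) (add_le_add hMZ h5) _)
  have e2 : ∑ i ∈ bxM u M with ∀ p ∈ T, ¬ Qp E D s p (fun i_1 => ((i i_1 : ℕ) : ZMod p)),
      (1 : ℝ) = (((bxM u M).filter (fun x => Rough E D s z x)).card : ℝ) := by
    rw [sum_const, nsmul_eq_mul, mul_one]
    congr 2
    ext x
    rw [mem_filter, mem_filter]
    rfl
  rw [e2] at key
  refine key.trans ?_
  have h7 : ((z : ℝ) + 1) ^ r ≤ Z := by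
    have h8 : (1 : ℝ) ≤ ((z : ℝ) + 1) ^ r := one_le_pow₀ (by
      have : (0 : ℝ) ≤ z := Nat.cast_nonneg _
      linarith)
    refine le_trans ?_ hr2
    exact le_self_pow₀ h8 (by norm_num)
  have h8 : (((z : ℝ) + 1) ^ r) ^ 2 ≤ √(Z : ℝ) := by
    rw [← Real.sqrt_sq (by positivity : (0 : ℝ) ≤ (((z : ℝ) + 1) ^ r) ^ 2)]
    apply Real.sqrt_le_sqrt
    refine le_trans (le_of_eq ?_) hr2
    ring
  have h9 : ∑ j ∈ range (r + 1), ∑ S ∈ T.powersetCard j, R ≤ ((z : ℝ) + 1) ^ r * R := by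
    have h5 := card_small T r
    have h6 : ∑ j ∈ range (r + 1), ∑ S ∈ T.powersetCard j, R =
        ((∑ j ∈ range (r + 1), (T.powersetCard j).card : ℕ) : ℝ) * R := by
      push_cast
      rw [sum_mul]
      apply sum_congr rfl
      intro j _
      rw [sum_const, nsmul_eq_mul]
    rw [h6]
    refine mul_le_mul_of_nonneg_right (h5.trans ?_) hR0
    have h7 : (T.card : ℝ) ≤ z := by exact_mod_cast (card_le_card hTz).trans (card_pz_le z)
    gcongr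
  have hZsq : √(Z : ℝ) * √(Z : ℝ) = Z := Real.mul_self_sqrt hZ0'.le
  have h10 : ((z : ℝ) + 1) ^ r * R ≤ (Z : ℝ) ^ n / (2 * L ^ U) := by
    rcases Nat.eq_zero_or_pos n with hn | hn
    · have : R = 0 := by
        rw [hRd, hn]
        simp
      rw [this, mul_zero]
      positivity
    have e3 : ((z : ℝ) + 1) ^ r * R ≤ n * √(Z : ℝ) * ((2 : ℝ) ^ (n - 1) * (Z : ℝ) ^ (n - 1)) := by
      rw [hRd]
      have e4 : ((Z : ℝ) + ((z : ℝ) + 1) ^ r) ^ (n - 1) ≤ (2 : ℝ) ^ (n - 1) * (Z : ℝ) ^ (n - 1) := by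
        rw [← mul_pow]
        exact pow_le_pow_left₀ (by positivity) (by linarith) _
      calc ((z : ℝ) + 1) ^ r * (n * ((z : ℝ) + 1) ^ r * ((Z : ℝ) + ((z : ℝ) + 1) ^ r) ^ (n - 1)) =
            n * (((z : ℝ) + 1) ^ r) ^ 2 * ((Z : ℝ) + ((z : ℝ) + 1) ^ r) ^ (n - 1) := by ring
        _ ≤ _ := by gcongr
    refine e3.trans ?_
    rw [le_div_iff₀ (by positivity)]
    have e5 : (Z : ℝ) ^ n = (√(Z : ℝ) * √(Z : ℝ)) * (Z : ℝ) ^ (n - 1) := by
      rw [hZsq, ← pow_succ']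
      congr 1
      omega
    rw [e5]
    push_cast at a1
    calc n * √(Z : ℝ) * ((2 : ℝ) ^ (n - 1) * (Z : ℝ) ^ (n - 1)) * (2 * L ^ U) =
          (2 * n * 2 ^ (n - 1) * L ^ U) * (√(Z : ℝ) * (Z : ℝ) ^ (n - 1)) := by ring
      _ ≤ √(Z : ℝ) * (√(Z : ℝ) * (Z : ℝ) ^ (n - 1)) := by gcongr
      _ = _ := by ring
  have h11 : 2 * (M : ℝ) ^ n * es (fun p => gp E D s p) T r ≤ (Z : ℝ) ^ n / (2 * L ^ U) := by
    have h5 : es (fun p => gp E D s p) T r ≤ 1 / L ^ (U + 1) := by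
      refine (es_le (fun p _ => gp_nonneg) r).trans (le_trans ?_ hr1)
      apply Real.exp_le_exp.2
      have h6 : ∑ p ∈ T, gp E D s p ≤ E.card * ∑ p ∈ pz z, 1 / (p : ℝ) := by
        rw [mul_sum]
        refine le_trans (sum_le_sum fun p hp => ?_)
          (sum_le_sum_of_subset_of_nonneg hTz (fun _ _ _ => by positivity))
        refine (gp_le (hTp p hp) (mem_filter.1 hp).2 hE).trans (le_of_eq ?_)
        ring
      have h7 := mul_le_mul_of_nonneg_left (sum_pz_le z) (Nat.cast_nonneg E.card : (0 : ℝ) ≤ _)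
      linarith
    have h6 : 0 ≤ es (fun p => gp E D s p) T r := es_nonneg (fun p _ => gp_nonneg) r
    have h7 : (M : ℝ) ^ n ≤ (Z : ℝ) ^ n := pow_le_pow_left₀ (Nat.cast_nonneg _) hMZ n
    calc 2 * (M : ℝ) ^ n * es (fun p => gp E D s p) T r ≤ 2 * (Z : ℝ) ^ n * (1 / L ^ (U + 1)) := by
          gcongr
      _ = (Z : ℝ) ^ n / (2 * L ^ U) * (4 / L) := by
          field_simp
          ring
      _ ≤ (Z : ℝ) ^ n / (2 * L ^ U) * 1 := by
          apply mul_le_mul_of_nonneg_left _ (by positivity)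
          rw [div_le_one hL0]
          exact hL
      _ = _ := mul_one _
  have h12 : (Z : ℝ) ^ n / L ^ U = (Z : ℝ) ^ n / (2 * L ^ U) + (Z : ℝ) ^ n / (2 * L ^ U) := by
    field_simp
    ring
  rw [h12]
  linarith

/-- the weight of the model -/
noncomputable def gM {n : ℕ} (D : ℕ) (s : Fin n × Fin n → ℤ) (z : ℕ) (e : Fin n × Fin n)
    (k : ℕ) : ℝ := lamz z ((D : ℤ) * k + s e).toNat

section

variable {n : ℕ} {E : Finset (Fin n × Fin n)} {D : ℕ} {s : Fin n × Fin n → ℤ}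

theorem gM_nonneg (z : ℕ) (e : Fin n × Fin n) (k : ℕ) : 0 ≤ gM D s z e k := lamz_nonneg _ _

theorem gM_le (z : ℕ) (e : Fin n × Fin n) (k : ℕ) : gM D s z e k ≤ (Vz z)⁻¹ := by
  unfold gM lamz
  split_ifs
  · exact le_rfl
  · exact inv_nonneg.2 (Vz_pos z).le

theorem tr_nonneg {Z : ℕ} {f : ℕ → ℝ} (h : ∀ k, 0 ≤ f k) (k : ℤ) : 0 ≤ tr Z f k := by
  unfold tr
  split_ifs
  · exact h _
  · exact le_rfl

theorem zmod_cond (p : ℕ) (x : Fin n → ℕ) (e : Fin n × Fin n) :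
    (D : ZMod p) * ((x e.1 : ZMod p) - (x e.2 : ZMod p)) + ((s e : ℤ) : ZMod p) = 0 ↔
      (p : ℤ) ∣ (D : ℤ) * ((x e.1 : ℤ) - x e.2) + s e := by
  rw [← CharP.intCast_eq_zero_iff (ZMod p) p]
  push_cast
  rfl

theorem lamz_ne (z m p : ℕ) (hp : p ∈ pz z) (hd : p ∣ m) : lamz z m = 0 := by
  unfold lamz
  rw [if_neg]
  intro h
  exact h p hp hd

/-- the product of the weights is at most the indicator function of the rough points -/
theorem prod_le_rough (Z z : ℕ) (x : Fin n → ℕ) :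
    ∏ e ∈ E, tr Z (gM D s z e) ((x e.1 : ℤ) - x e.2) ≤ ((Vz z)⁻¹) ^ E.card ∧
    (¬ Rough E D s z x → ∏ e ∈ E, tr Z (gM D s z e) ((x e.1 : ℤ) - x e.2) = 0) := by
  constructor
  · calc _ ≤ ∏ _e ∈ E, (Vz z)⁻¹ := by
          refine prod_le_prod (fun e _ => tr_nonneg (gM_nonneg z e) _) fun e _ => ?_
          unfold tr
          split_ifs
          · exact gM_le z e _
          · exact inv_nonneg.2 (Vz_pos z).le
      _ = _ := prod_const _
  · intro h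
    unfold Rough at h
    push Not at h
    obtain ⟨p, hp, e, he, h2⟩ := h
    rw [zmod_cond] at h2
    refine prod_eq_zero he ?_
    unfold tr
    split_ifs with h3
    · have h4 : (((((x e.1 : ℤ) - x e.2).toNat : ℕ)) : ℤ) = (x e.1 : ℤ) - x e.2 :=
        Int.toNat_of_nonneg (by omega)
      unfold gM
      rw [h4]
      refine lamz_ne z _ p (mem_filter.1 hp).1 ?_
      rcases le_or_gt 0 ((D : ℤ) * ((x e.1 : ℤ) - x e.2) + s e) with h5 | h5
      · have h6 := Int.toNat_of_nonneg h5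
        rw [← h6] at h2
        exact_mod_cast h2
      · rw [Int.toNat_of_nonpos h5.le]
        exact dvd_zero p
    · rfl

/-- the product of the weights at the rough points with large differences -/
theorem prod_eq_rough (Z z : ℕ) (x : Fin n → ℕ) (hs : ∀ e ∈ E, IsCoprime (s e) (D : ℤ))
    (hx : ∀ e ∈ E, 1 ≤ (x e.1 : ℤ) - x e.2 ∧ (x e.1 : ℤ) - x e.2 ≤ Z ∧
      0 < (D : ℤ) * ((x e.1 : ℤ) - x e.2) + s e) (hr : Rough E D s z x) :
    ∏ e ∈ E, tr Z (gM D s z e) ((x e.1 : ℤ) - x e.2) = ((Vz z)⁻¹) ^ E.card := by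
  rw [← prod_const]
  refine prod_congr rfl fun e he => ?_
  obtain ⟨h1, h2, h3⟩ := hx e he
  unfold tr
  rw [if_pos ⟨h1, h2⟩]
  have h4 : (((((x e.1 : ℤ) - x e.2).toNat : ℕ)) : ℤ) = (x e.1 : ℤ) - x e.2 :=
    Int.toNat_of_nonneg (by omega)
  unfold gM
  rw [h4]
  unfold lamz
  rw [if_pos]
  intro p hp hd
  have hpp := (mem_pz.1 hp).2
  have h5 : (p : ℤ) ∣ (D : ℤ) * ((x e.1 : ℤ) - x e.2) + s e := by
    have h6 := Int.toNat_of_nonneg h3.le
    rw [← h6]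
    exact_mod_cast hd
  by_cases hpD : p ∣ D
  · have h6 : (p : ℤ) ∣ (D : ℤ) := by exact_mod_cast hpD
    have h7 : (p : ℤ) ∣ s e := by
      have h8 : (p : ℤ) ∣ (D : ℤ) * ((x e.1 : ℤ) - x e.2) := h6.mul_right _
      exact (Int.dvd_add_right h8).1 h5
    have h9 := (hs e he).isUnit_of_dvd' h7 h6
    rw [Int.isUnit_iff] at h9
    have := hpp.one_lt
    omega
  · exact hr p (mem_filter.2 ⟨hp, hpD⟩) ⟨e, he, (zmod_cond p x e).2 h5⟩

/-- upper bound for the sums of the model -/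
theorem model_upper (hE : Simp E) (hD : 0 < D) : ∃ C : ℝ, 0 < C ∧ ∀ E0 : ℕ, ∃ Z0 : ℕ,
    ∀ Z : ℕ, Z0 ≤ Z → ∀ z : ℕ, 1 ≤ z → (z : ℝ) ≤ Real.log Z ^ E0 →
    GS Z E (gM D s z) ≤ C * (Z : ℝ) ^ n := by
  classical
  set C1 : ℝ := ((2 : ℝ) ^ E.card) ^ D * Real.exp ((E.card : ℝ) ^ 2 + 2 * E.card) with hC1
  have hC1p : 0 < C1 := by positivity
  refine ⟨C1 + 1, by positivity, fun E0 => ?_⟩
  obtain ⟨N0, h0⟩ := sieve_box E hE D s E0 E.card
  obtain ⟨N1, h1⟩ := Vz_inv_small E0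
  obtain ⟨N2, h2⟩ := ev_L' 1
  refine ⟨max N0 (max N1 N2), fun Z hZ z hz hzE => ?_⟩
  have a0 := h0 Z (le_trans (le_max_left _ _) hZ) z hz hzE (fun _ => 0) Z le_rfl
  have a1 := h1 Z (le_trans (le_trans (le_max_left _ _) (le_max_right _ _)) hZ) z hz hzE
  have hL := h2 Z (le_trans (le_trans (le_max_right _ _) (le_max_right _ _)) hZ)
  set L := Real.log Z with hLd
  have hL0 : 0 < L := by linarith
  have hV0 : 0 ≤ (Vz z)⁻¹ := inv_nonneg.2 (Vz_pos z).le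
  have hb : bx n Z = bxM (fun _ => 0) Z := by
    unfold bx bxM
    congr 1
    funext i
    ext k
    rw [mem_Icc, mem_Ioc]
    show 1 ≤ k ∧ k ≤ Z ↔ 0 < k ∧ k ≤ 0 + Z
    omega
  have e1 : GS Z E (gM D s z) ≤ ((Vz z)⁻¹) ^ E.card *
      ((((bxM (fun _ : Fin n => 0) Z).filter (fun x => Rough E D s z x)).card : ℕ) : ℝ) := by
    unfold GS
    rw [hb, card_filter]
    push_cast
    rw [mul_sum]
    refine sum_le_sum fun x _ => ?_
    obtain ⟨h3, h4⟩ := prod_le_rough (E := E) (D := D) (s := s) Z z x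
    split_ifs with h5
    · rw [mul_one]; exact h3
    · rw [mul_zero, h4 h5]
  refine e1.trans ?_
  have e2 := (abs_le.1 a0).2
  have e3 : ((Vz z)⁻¹) ^ E.card ≤ L ^ E.card := pow_le_pow_left₀ hV0 a1 _
  have e4 := sing_upper E D s hE hD z
  rw [← hC1] at e4
  unfold sing at e4
  calc _ ≤ ((Vz z)⁻¹) ^ E.card * ((Z : ℝ) ^ n * ∏ p ∈ TD D z, (1 - gp E D s p) +
        (Z : ℝ) ^ n / L ^ E.card) := by
        apply mul_le_mul_of_nonneg_left _ (by positivity)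
        linarith
    _ = (((Vz z)⁻¹) ^ E.card * ∏ p ∈ TD D z, (1 - gp E D s p)) * (Z : ℝ) ^ n +
        ((Vz z)⁻¹) ^ E.card * ((Z : ℝ) ^ n / L ^ E.card) := by ring
    _ ≤ C1 * (Z : ℝ) ^ n + L ^ E.card * ((Z : ℝ) ^ n / L ^ E.card) := by gcongr
    _ = _ := by field_simp

/-- lower bound for the sums of the model -/
theorem model_lower (hn : 0 < n) (hE : Simp E) (hord : ∀ e ∈ E, e.2 < e.1)
    (hD0 : 0 < D) (hD : ∀ p : ℕ, p.Prime → p < 2 * E.card → p ∣ D)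
    (hs : ∀ e ∈ E, IsCoprime (s e) (D : ℤ)) : ∃ c : ℝ, 0 < c ∧ ∀ E0 : ℕ, ∃ Z0 : ℕ,
    ∀ Z : ℕ, Z0 ≤ Z → ∀ z : ℕ, 1 ≤ z → (z : ℝ) ≤ Real.log Z ^ E0 →
    c * (Z : ℝ) ^ n ≤ GS Z E (gM D s z) := by
  classical
  set c1 : ℝ := Real.exp (-(2 * (E.card : ℝ) ^ 2)) * (1 / (4 * n)) ^ n with hc1
  have hnr : (0 : ℝ) < n := by exact_mod_cast hn
  have hc1p : 0 < c1 := by positivity
  refine ⟨c1 / 2, by positivity, fun E0 => ?_⟩
  obtain ⟨N0, h0⟩ := sieve_box E hE D s E0 (E.card + 1)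
  obtain ⟨N1, h1⟩ := Vz_inv_small E0
  obtain ⟨N2, h2⟩ := ev_L' (max 1 (2 / c1))
  set N3 : ℕ := 2 * n * (∑ e ∈ E, (s e).natAbs + 1) with hN3
  refine ⟨max (max N0 N1) (max N2 N3), fun Z hZ z hz hzE => ?_⟩
  have a0' := h0 Z (le_trans (le_trans (le_max_left _ _) (le_max_left _ _)) hZ) z hz hzE
  have a1 := h1 Z (le_trans (le_trans (le_max_right _ _) (le_max_left _ _)) hZ) z hz hzE
  have hLL := h2 Z (le_trans (le_trans (le_max_left _ _) (le_max_right _ _)) hZ)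
  have hZN : N3 ≤ Z := le_trans (le_trans (le_max_right _ _) (le_max_right _ _)) hZ
  set L := Real.log Z with hLd
  have hL1 : 1 ≤ L := (le_max_left _ _).trans hLL
  have hL2 : 2 / c1 ≤ L := (le_max_right _ _).trans hLL
  have hL0 : 0 < L := by linarith
  have hV0 : 0 ≤ (Vz z)⁻¹ := inv_nonneg.2 (Vz_pos z).le
  set M : ℕ := Z / (2 * n) with hM
  have hMs : ∑ e ∈ E, (s e).natAbs + 1 ≤ M := by
    rw [hM, Nat.le_div_iff_mul_le (by omega)]
    calc (∑ e ∈ E, (s e).natAbs + 1) * (2 * n) = N3 := by rw [hN3]; ring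
      _ ≤ Z := hZN
  have hMZ : 2 * n * M ≤ Z := Nat.mul_div_le _ _
  have hM1 : 1 ≤ M := by omega
  have hMZ' : M ≤ Z := by
    refine le_trans ?_ hMZ
    exact Nat.le_mul_of_pos_left _ (by omega)
  have hMlow : (Z : ℝ) * (1 / (4 * n)) ≤ M := by
    have h3 : Z < 2 * n * (M + 1) := Nat.lt_mul_div_succ Z (by omega)
    have h4 : Z ≤ 4 * n * M := by nlinarith
    have h5 : (Z : ℝ) ≤ 4 * n * M := by exact_mod_cast h4
    rw [mul_one_div, div_le_iff₀ (by positivity)]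
    linarith
  have a0 := a0' (fun i => 2 * (i : ℕ) * M) M hMZ'
  have hsub : bxM (fun i : Fin n => 2 * (i : ℕ) * M) M ⊆ bx n Z := by
    intro x hx
    unfold bxM at hx
    unfold bx
    rw [Fintype.mem_piFinset] at hx ⊢
    intro i
    have h3 := hx i
    rw [mem_Ioc] at h3
    rw [mem_Icc]
    refine ⟨by omega, h3.2.trans (le_trans ?_ hMZ)⟩
    have h4 : (i : ℕ) + 1 ≤ n := i.2
    nlinarith
  have hdiff : ∀ x ∈ bxM (fun i : Fin n => 2 * (i : ℕ) * M) M, ∀ e ∈ E,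
      1 ≤ (x e.1 : ℤ) - x e.2 ∧ (x e.1 : ℤ) - x e.2 ≤ Z ∧
      0 < (D : ℤ) * ((x e.1 : ℤ) - x e.2) + s e := by
    intro x hx e he
    have hxZ := hsub hx
    unfold bxM at hx
    unfold bx at hxZ
    rw [Fintype.mem_piFinset] at hx hxZ
    have h3 : 2 * (e.1 : ℕ) * M < x e.1 ∧ x e.1 ≤ 2 * (e.1 : ℕ) * M + M := mem_Ioc.1 (hx e.1)
    have h4 : 2 * (e.2 : ℕ) * M < x e.2 ∧ x e.2 ≤ 2 * (e.2 : ℕ) * M + M := mem_Ioc.1 (hx e.2)
    have h5 := mem_Icc.1 (hxZ e.1)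
    have h6 : (e.2 : ℕ) + 1 ≤ (e.1 : ℕ) := hord e he
    have h7 : 2 * (e.2 : ℕ) * M + 2 * M ≤ 2 * (e.1 : ℕ) * M := by nlinarith
    have h8 : (s e).natAbs ≤ ∑ e ∈ E, (s e).natAbs :=
      single_le_sum (f := fun e => (s e).natAbs) (fun _ _ => Nat.zero_le _) he
    have h9 : x e.2 + M + 1 ≤ x e.1 := by omega
    refine ⟨by omega, by omega, ?_⟩
    have h10 : (M : ℤ) + 1 ≤ (x e.1 : ℤ) - x e.2 := by omega
    have h11 : (1 : ℤ) ≤ D := by exact_mod_cast hD0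
    have h12 : (M : ℤ) + 1 ≤ (D : ℤ) * ((x e.1 : ℤ) - x e.2) := by nlinarith
    have h13 : -((s e).natAbs : ℤ) ≤ s e := by omega
    omega
  have e1 : ((Vz z)⁻¹) ^ E.card *
      ((((bxM (fun i : Fin n => 2 * (i : ℕ) * M) M).filter
        (fun x => Rough E D s z x)).card : ℕ) : ℝ) ≤ GS Z E (gM D s z) := by
    unfold GS
    rw [card_filter]
    push_cast
    rw [mul_sum]
    refine le_trans (sum_le_sum fun x hx => ?_) (sum_le_sum_of_subset_of_nonneg hsub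
      (fun x _ _ => prod_nonneg fun e _ => tr_nonneg (gM_nonneg z e) _))
    split_ifs with h5
    · rw [mul_one, prod_eq_rough Z z x hs (hdiff x hx) h5]
    · rw [mul_zero]
      exact prod_nonneg fun e _ => tr_nonneg (gM_nonneg z e) _
  refine le_trans ?_ e1
  have e2 := (abs_le.1 a0).1
  have e3 : ((Vz z)⁻¹) ^ E.card ≤ L ^ E.card := pow_le_pow_left₀ hV0 a1 _
  have e4 := sing_lower E D s hE hD z
  unfold sing at e4
  have e5 : ((Vz z)⁻¹) ^ E.card * ((M : ℝ) ^ n * ∏ p ∈ TD D z, (1 - gp E D s p) -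
      (Z : ℝ) ^ n / L ^ (E.card + 1)) ≤ ((Vz z)⁻¹) ^ E.card *
      ((((bxM (fun i : Fin n => 2 * (i : ℕ) * M) M).filter
        (fun x => Rough E D s z x)).card : ℕ) : ℝ) := by
    apply mul_le_mul_of_nonneg_left _ (by positivity)
    linarith
  refine le_trans ?_ e5
  have e6 : ((Vz z)⁻¹) ^ E.card * ((M : ℝ) ^ n * ∏ p ∈ TD D z, (1 - gp E D s p) -
      (Z : ℝ) ^ n / L ^ (E.card + 1)) =
      (((Vz z)⁻¹) ^ E.card * ∏ p ∈ TD D z, (1 - gp E D s p)) * (M : ℝ) ^ n -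
      ((Vz z)⁻¹) ^ E.card * ((Z : ℝ) ^ n / L ^ (E.card + 1)) := by ring
  rw [e6]
  have e7 : c1 * (Z : ℝ) ^ n ≤
      (((Vz z)⁻¹) ^ E.card * ∏ p ∈ TD D z, (1 - gp E D s p)) * (M : ℝ) ^ n := by
    rw [hc1]
    calc Real.exp (-(2 * (E.card : ℝ) ^ 2)) * (1 / (4 * n)) ^ n * (Z : ℝ) ^ n =
          Real.exp (-(2 * (E.card : ℝ) ^ 2)) * ((Z : ℝ) * (1 / (4 * n))) ^ n := by
          rw [mul_pow]; ring
      _ ≤ _ := by
          apply mul_le_mul e4 (pow_le_pow_left₀ (by positivity) hMlow _) (by positivity)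
          exact (Real.exp_pos _).le.trans e4
  have e8 : ((Vz z)⁻¹) ^ E.card * ((Z : ℝ) ^ n / L ^ (E.card + 1)) ≤ c1 / 2 * (Z : ℝ) ^ n := by
    calc _ ≤ L ^ E.card * ((Z : ℝ) ^ n / L ^ (E.card + 1)) := by gcongr
      _ = (1 / L) * (Z : ℝ) ^ n := by
          rw [pow_succ]
          have := (pow_pos hL0 E.card).ne'
          field_simp
      _ ≤ _ := by
          apply mul_le_mul_of_nonneg_right _ (by positivity)
          rw [div_le_iff₀ hL0]
          rw [div_le_iff₀ hc1p] at hL2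
          linarith
  linarith

end

end Pool.Agent.Zk78.SP
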