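import Mathlib
import Pool.Agent.Zk78.SP.Sv2

/-!
# The exponential sums along a progression
-/

set_option autoImplicit false

open Finset

namespace Pool.Agent.Zk78.SP

open Pool.Agent.H373R2.T7 Pool.Agent.H807R2.Dav

/-- detection of a progression by characters -/
theorem ap_all (f : ℕ → ℝ) (D N : ℕ) (hD : 1 ≤ D) (s : ℤ) (θ A : ℝ)
    (hA : ∀ α : ℝ, ‖∑ n ∈ Icc 1 N, ((f n : ℝ) : ℂ) * ee ((n : ℝ) * α)‖ ≤ A) :
    ‖∑ n ∈ (Icc 1 N).filter (fun n : ℕ => (D : ℤ) ∣ (n : ℤ) - s),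
      ((f n : ℝ) : ℂ) * ee ((((n : ℤ) - s : ℤ) : ℝ) * (θ / D))‖ ≤ A := by
  have hD0 : (0 : ℝ) < D := by exact_mod_cast hD
  have h1 : (D : ℂ) * ∑ n ∈ (Icc 1 N).filter (fun n : ℕ => (D : ℤ) ∣ (n : ℤ) - s),
      ((f n : ℝ) : ℂ) * ee ((((n : ℤ) - s : ℤ) : ℝ) * (θ / D)) =
      ∑ t ∈ range D, ee (-(s : ℝ) * ((t + θ) / D)) *
        ∑ n ∈ Icc 1 N, ((f n : ℝ) : ℂ) * ee ((n : ℝ) * ((t + θ) / D)) := by
    simp only [mul_sum]
    rw [sum_filter, sum_comm]
    refine sum_congr rfl fun n _ => ?_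
    have h2 := orth D hD ((n : ℤ) - s)
    have h3 : ∑ t ∈ range D, ee (-(s : ℝ) * ((t + θ) / D)) *
        (((f n : ℝ) : ℂ) * ee ((n : ℝ) * ((t + θ) / D))) =
        (((f n : ℝ) : ℂ) * ee ((((n : ℤ) - s : ℤ) : ℝ) * (θ / D))) *
        ∑ t ∈ range D, ee ((t : ℝ) * ((((n : ℤ) - s : ℤ) : ℝ) / D)) := by
      rw [mul_sum]
      refine sum_congr rfl fun t _ => ?_
      have h4 : ee (-(s : ℝ) * ((t + θ) / D)) * ee ((n : ℝ) * ((t + θ) / D)) =
          ee ((((n : ℤ) - s : ℤ) : ℝ) * (θ / D)) *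
          ee ((t : ℝ) * ((((n : ℤ) - s : ℤ) : ℝ) / D)) := by
        rw [← ee_add, ← ee_add]
        congr 1
        push_cast
        ring
      linear_combination (((f n : ℝ) : ℂ)) * h4
    rw [h3, h2]
    split_ifs with h
    · ring
    · ring
  have h2 : (D : ℝ) * ‖∑ n ∈ (Icc 1 N).filter (fun n : ℕ => (D : ℤ) ∣ (n : ℤ) - s),
      ((f n : ℝ) : ℂ) * ee ((((n : ℤ) - s : ℤ) : ℝ) * (θ / D))‖ ≤ D * A := by
    have h3 : (D : ℝ) * ‖∑ n ∈ (Icc 1 N).filter (fun n : ℕ => (D : ℤ) ∣ (n : ℤ) - s),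
      ((f n : ℝ) : ℂ) * ee ((((n : ℤ) - s : ℤ) : ℝ) * (θ / D))‖ =
      ‖(D : ℂ) * ∑ n ∈ (Icc 1 N).filter (fun n : ℕ => (D : ℤ) ∣ (n : ℤ) - s),
      ((f n : ℝ) : ℂ) * ee ((((n : ℤ) - s : ℤ) : ℝ) * (θ / D))‖ := by
      rw [norm_mul, Complex.norm_natCast]
    rw [h3, h1]
    refine (norm_sum_le _ _).trans ?_
    calc _ ≤ ∑ _t ∈ range D, A := by
          refine sum_le_sum fun t _ => ?_
          rw [norm_mul, norm_ee, one_mul]
          exact hA _
      _ = _ := by rw [sum_const, card_range, nsmul_eq_mul]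
  exact le_of_mul_le_mul_left h2 hD0

theorem ap_detect (f : ℕ → ℝ) (hf0 : f 0 = 0) (D Z N : ℕ) (hD : 1 ≤ D) (s : ℤ)
    (hN : (N : ℤ) = D * Z + s) (θ A B : ℝ) (hB0 : 0 ≤ B)
    (hA : ∀ α : ℝ, ‖∑ n ∈ Icc 1 N, ((f n : ℝ) : ℂ) * ee ((n : ℝ) * α)‖ ≤ A)
    (hB : ∀ n : ℕ, n ≤ s.toNat → |f n| ≤ B) :
    ‖∑ k ∈ Icc 1 Z, ((f ((D : ℤ) * k + s).toNat : ℝ) : ℂ) * ee ((k : ℝ) * θ)‖ ≤
      A + s.toNat * B := by
  have hD0 : (0 : ℝ) < D := by exact_mod_cast hD
  set S1 := (Icc 1 N).filter (fun n : ℕ => (D : ℤ) ∣ (n : ℤ) - s) with hS1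
  set F : ℕ → ℂ := fun n => ((f n : ℝ) : ℂ) * ee ((((n : ℤ) - s : ℤ) : ℝ) * (θ / D)) with hF
  have h1 : ‖∑ n ∈ S1, F n‖ ≤ A := ap_all f D N hD s θ A hA
  have h2 : ∑ k ∈ Icc 1 Z, ((f ((D : ℤ) * k + s).toNat : ℝ) : ℂ) * ee ((k : ℝ) * θ) =
      ∑ n ∈ S1.filter (fun n : ℕ => s < (n : ℤ)), F n := by
    rw [← sum_filter_add_sum_filter_not (Icc 1 Z) (fun k : ℕ => 1 ≤ (D : ℤ) * k + s)]
    have h3 : ∑ k ∈ (Icc 1 Z).filter (fun k : ℕ => ¬ 1 ≤ (D : ℤ) * k + s),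
        ((f ((D : ℤ) * k + s).toNat : ℝ) : ℂ) * ee ((k : ℝ) * θ) = 0 := by
      refine sum_eq_zero fun k hk => ?_
      rw [mem_filter] at hk
      rw [Int.toNat_of_nonpos (by omega), hf0]
      simp
    rw [h3, add_zero]
    refine sum_bij (fun k _ => ((D : ℤ) * k + s).toNat) ?_ ?_ ?_ ?_
    · intro k hk
      rw [mem_filter, mem_Icc] at hk
      have h4 := Int.toNat_of_nonneg (show 0 ≤ (D : ℤ) * k + s by omega)
      have h5 : (D : ℤ) * k ≤ D * Z := by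
        apply mul_le_mul_of_nonneg_left _ (by positivity)
        exact_mod_cast hk.1.2
      have h6 : (1 : ℤ) ≤ D * k := by
        have e1 : (1 : ℤ) ≤ D := by exact_mod_cast hD
        have e2 : (1 : ℤ) ≤ k := by exact_mod_cast hk.1.1
        nlinarith
      rw [mem_filter, hS1, mem_filter, mem_Icc, h4]
      refine ⟨⟨⟨by omega, by omega⟩, ?_⟩, by omega⟩
      rw [add_sub_cancel_right]
      exact dvd_mul_right _ _
    · intro a ha b hb hab
      rw [mem_filter, mem_Icc] at ha hb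
      have h4 := Int.toNat_of_nonneg (show 0 ≤ (D : ℤ) * a + s by omega)
      have h5 := Int.toNat_of_nonneg (show 0 ≤ (D : ℤ) * b + s by omega)
      have h6 : (D : ℤ) * a = D * b := by
        have : (((((D : ℤ) * a + s).toNat : ℕ)) : ℤ) = ((((D : ℤ) * b + s).toNat : ℕ) : ℤ) := by
          exact_mod_cast hab
        omega
      have h7 : (D : ℤ) ≠ 0 := by positivity
      have := mul_left_cancel₀ h7 h6
      exact_mod_cast this
    · intro m hm
      rw [mem_filter, hS1, mem_filter, mem_Icc] at hm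
      obtain ⟨⟨⟨h4, h5⟩, ⟨j, hj⟩⟩, h6⟩ := hm
      have hj0 : 0 < j := by
        have : 0 < (D : ℤ) * j := by omega
        exact (mul_pos_iff_of_pos_left (by exact_mod_cast hD)).1 this
      have hjZ : j ≤ Z := by
        have h7 : (D : ℤ) * j ≤ D * Z := by omega
        exact le_of_mul_le_mul_left h7 (by exact_mod_cast hD)
      have h8 : ((j.toNat : ℕ) : ℤ) = j := Int.toNat_of_nonneg hj0.le
      refine ⟨j.toNat, ?_, ?_⟩
      · rw [mem_filter, mem_Icc, h8]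
        refine ⟨⟨by omega, by omega⟩, by omega⟩
      · have : (D : ℤ) * ((j.toNat : ℕ) : ℤ) + s = m := by rw [h8]; omega
        show (((D : ℤ) * ((j.toNat : ℕ) : ℤ) + s).toNat) = m
        rw [this]
        exact Int.toNat_natCast m
    · intro k hk
      rw [mem_filter, mem_Icc] at hk
      have h4 := Int.toNat_of_nonneg (show 0 ≤ (D : ℤ) * k + s by omega)
      rw [hF]
      simp only
      rw [h4]
      congr 2
      push_cast
      field_simp
      ring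
  have h3 : ∑ n ∈ S1, F n = ∑ n ∈ S1.filter (fun n : ℕ => s < (n : ℤ)), F n +
      ∑ n ∈ S1.filter (fun n : ℕ => ¬ s < (n : ℤ)), F n :=
    (sum_filter_add_sum_filter_not _ _ _).symm
  have h4 : ‖∑ n ∈ S1.filter (fun n : ℕ => ¬ s < (n : ℤ)), F n‖ ≤ s.toNat * B := by
    refine (norm_sum_le _ _).trans ?_
    have h5 : ∀ n ∈ S1.filter (fun n : ℕ => ¬ s < (n : ℤ)), ‖F n‖ ≤ B := by
      intro n hn
      rw [mem_filter] at hn
      rw [hF]
      simp only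
      rw [norm_mul, norm_ee, mul_one, Complex.norm_real, Real.norm_eq_abs]
      exact hB n (by omega)
    refine (sum_le_sum h5).trans ?_
    rw [sum_const, nsmul_eq_mul]
    refine mul_le_mul_of_nonneg_right ?_ hB0
    have h6 : S1.filter (fun n : ℕ => ¬ s < (n : ℤ)) ⊆ Icc 1 s.toNat := by
      intro n hn
      rw [mem_filter, hS1, mem_filter, mem_Icc] at hn
      rw [mem_Icc]
      omega
    have h7 := card_le_card h6
    rw [Nat.card_Icc, Nat.add_sub_cancel] at h7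
    exact_mod_cast h7
  have h5 : ∑ k ∈ Icc 1 Z, ((f ((D : ℤ) * k + s).toNat : ℝ) : ℂ) * ee ((k : ℝ) * θ) =
      ∑ n ∈ S1, F n - ∑ n ∈ S1.filter (fun n : ℕ => ¬ s < (n : ℤ)), F n := by
    rw [h2, h3]; ring
  rw [h5]
  refine (norm_sub_le _ _).trans ?_
  linarith

/-- the level of the model -/
noncomputable def zB (B Z : ℕ) : ℕ := ⌈(2 * Real.log Z) ^ B⌉₊ + 2

theorem zB_le (B : ℕ) : ∃ Z0 : ℕ, ∀ Z : ℕ, Z0 ≤ Z → (zB B Z : ℝ) ≤ Real.log Z ^ (B + 1) := by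
  obtain ⟨Z0, h0⟩ := ev_L' (2 ^ B + 3)
  refine ⟨Z0, fun Z hZ => ?_⟩
  have hL := h0 Z hZ
  set L := Real.log Z with hLd
  have h2B : (0 : ℝ) < 2 ^ B := by positivity
  have hL1 : 1 ≤ L := by linarith
  have hL0 : 0 < L := by linarith
  have h1 : 1 ≤ L ^ B := one_le_pow₀ hL1
  have h2 : (⌈(2 * L) ^ B⌉₊ : ℝ) ≤ (2 * L) ^ B + 1 := (Nat.ceil_lt_add_one (by positivity)).le
  have h3 : (⌈(2 * L) ^ B⌉₊ : ℝ) ≤ 2 ^ B * L ^ B + 1 := by rw [← mul_pow]; exact h2
  have h4 : L ^ B * (2 ^ B + 3) ≤ L ^ B * L := mul_le_mul_of_nonneg_left hL (by positivity)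
  unfold zB
  push_cast
  rw [← hLd, pow_succ]
  linarith

/-- the von Mangoldt function along a progression -/
noncomputable def fL {n : ℕ} (D : ℕ) (s : Fin n × Fin n → ℤ) (e : Fin n × Fin n) (k : ℕ) : ℝ :=
  ArithmeticFunction.vonMangoldt ((D : ℤ) * k + s e).toNat

theorem sup_ap (D U : ℕ) (hD : 2 ≤ D) : ∃ B : ℕ, ∀ s : ℤ, ∃ Z0 : ℕ, ∀ Z : ℕ, Z0 ≤ Z → ∀ θ : ℝ,
    ‖∑ k ∈ Icc 1 Z, ((ArithmeticFunction.vonMangoldt ((D : ℤ) * k + s).toNat -
      lamz (zB B Z) ((D : ℤ) * k + s).toNat : ℝ) : ℂ) * ee ((k : ℝ) * θ)‖ ≤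
      Z / Real.log Z ^ U := by
  obtain ⟨B, hB⟩ := sup_diff (U + 1)
  refine ⟨B, fun s => ?_⟩
  obtain ⟨N0, h0⟩ := hB (B + 1)
  obtain ⟨N1, h1⟩ := zB_le B
  obtain ⟨N2, h2⟩ := Vz_inv_small (B + 1)
  obtain ⟨N3, h3⟩ := ev_L' (8 * D + 1)
  obtain ⟨N4, h4⟩ := ev_log' U (2 * (s.toNat * (s.toNat + 1) + 1))
  obtain ⟨N5, h5⟩ := ev_log' 1 1
  refine ⟨max (max (max N0 N1) (max N2 N3)) (max (max N4 N5) (max (s.natAbs + 1) (2 * D + 2))),
    fun Z hZ θ => ?_⟩
  have hZ0 : N0 ≤ Z := le_trans (le_trans (le_trans (le_max_left _ _) (le_max_left _ _)) (le_max_left _ _)) hZ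
  have hZ1 : N1 ≤ Z := le_trans (le_trans (le_trans (le_max_right _ _) (le_max_left _ _)) (le_max_left _ _)) hZ
  have hZ2 : N2 ≤ Z := le_trans (le_trans (le_trans (le_max_left _ _) (le_max_right _ _)) (le_max_left _ _)) hZ
  have hZ3 : N3 ≤ Z := le_trans (le_trans (le_trans (le_max_right _ _) (le_max_right _ _)) (le_max_left _ _)) hZ
  have hZ4 : N4 ≤ Z := le_trans (le_trans (le_trans (le_max_left _ _) (le_max_left _ _)) (le_max_right _ _)) hZ
  have hZ5 : N5 ≤ Z := le_trans (le_trans (le_trans (le_max_right _ _) (le_max_left _ _)) (le_max_right _ _)) hZ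
  have hZ6 : s.natAbs + 1 ≤ Z := le_trans (le_trans (le_trans (le_max_left _ _) (le_max_right _ _)) (le_max_right _ _)) hZ
  have hZ7 : 2 * D + 2 ≤ Z := le_trans (le_trans (le_trans (le_max_right _ _) (le_max_right _ _)) (le_max_right _ _)) hZ
  have b1 := h1 Z hZ1
  have b3 := h3 Z hZ3
  have b4 := h4 Z hZ4
  have b5 := h5 Z hZ5
  have hDr : (2 : ℝ) ≤ D := by exact_mod_cast hD
  have hZr : (1 : ℝ) ≤ Z := by exact_mod_cast (by omega : 1 ≤ Z)
  have hZpos : (0 : ℝ) < Z := by linarith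
  set L := Real.log Z with hLd
  have hL0 : 0 < L := by linarith
  have hL1 : 1 ≤ L := by linarith
  -- the length
  have hDZ : (2 : ℤ) * Z ≤ D * Z := by
    apply mul_le_mul_of_nonneg_right _ (by positivity)
    exact_mod_cast hD
  obtain ⟨N, hN⟩ : ∃ N : ℕ, (N : ℤ) = D * Z + s :=
    ⟨((D : ℤ) * Z + s).toNat, Int.toNat_of_nonneg (by omega)⟩
  have hNZ : Z ≤ N := by omega
  have hN2 : (N : ℤ) ≤ 2 * (D * Z) := by omega
  have hN2r : (N : ℝ) ≤ 2 * (D * Z) := by exact_mod_cast hN2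
  have hNZr : (Z : ℝ) ≤ N := by exact_mod_cast hNZ
  have hNsq : (N : ℝ) ≤ (Z : ℝ) ^ 2 := by
    refine hN2r.trans ?_
    have : ((2 * D + 2 : ℕ) : ℝ) ≤ Z := by exact_mod_cast hZ7
    push_cast at this
    nlinarith
  have hlN1 : L ≤ Real.log N := Real.log_le_log hZpos hNZr
  have hlN2 : Real.log N ≤ 2 * L := by
    have := Real.log_le_log (by linarith : (0 : ℝ) < N) hNsq
    rw [Real.log_pow] at this
    push_cast at this
    exact this
  set z := zB B Z with hz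
  have hz1 : Real.log N ^ B ≤ z := by
    calc Real.log N ^ B ≤ (2 * L) ^ B := pow_le_pow_left₀ (by linarith) hlN2 B
      _ ≤ (⌈(2 * L) ^ B⌉₊ : ℝ) := Nat.le_ceil _
      _ ≤ z := by
        rw [hz]
        unfold zB
        push_cast
        linarith
  have hz2 : (z : ℝ) ≤ Real.log N ^ (B + 1) := b1.trans (pow_le_pow_left₀ hL0.le hlN1 _)
  have hz3 : 2 ≤ z := by rw [hz]; unfold zB; omega
  have b2 := h2 Z hZ2 z (by omega) b1
  have hsup := h0 N (hZ0.trans hNZ) z hz1 hz2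
  set f : ℕ → ℝ := fun n => ArithmeticFunction.vonMangoldt n - lamz z n with hf
  have hf0 : f 0 = 0 := by
    rw [hf]
    simp only
    rw [lamz_ne z 0 2 (mem_pz.2 ⟨hz3, Nat.prime_two⟩) (dvd_zero 2)]
    simp
  have hfB : ∀ m : ℕ, m ≤ s.toNat → |f m| ≤ s.toNat + L := by
    intro m hm
    rw [hf]
    simp only
    refine (abs_sub _ _).trans ?_
    have e1 : |ArithmeticFunction.vonMangoldt m| ≤ s.toNat := by
      rw [abs_of_nonneg ArithmeticFunction.vonMangoldt_nonneg]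
      refine ArithmeticFunction.vonMangoldt_le_log.trans ?_
      have e2 : Real.log m ≤ m := by
        rcases Nat.eq_zero_or_pos m with h | h
        · subst h; simp
        · have := Real.log_le_sub_one_of_pos (show (0 : ℝ) < m by exact_mod_cast h)
          linarith
      have e3 : (m : ℝ) ≤ s.toNat := by exact_mod_cast hm
      linarith
    have e2 : |lamz z m| ≤ L := by
      rw [abs_of_nonneg (lamz_nonneg _ _)]
      refine le_trans ?_ b2
      unfold lamz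
      split_ifs
      · exact le_rfl
      · exact inv_nonneg.2 (Vz_pos z).le
    linarith
  have hmain := ap_detect f hf0 D Z N (by omega) s hN θ (N / Real.log N ^ (U + 1)) (s.toNat + L)
    (by positivity) hsup hfB
  refine hmain.trans ?_
  have e1 : (N : ℝ) / Real.log N ^ (U + 1) ≤ (Z : ℝ) / L ^ U / 2 := by
    calc (N : ℝ) / Real.log N ^ (U + 1) ≤ 2 * (D * Z) / L ^ (U + 1) := by
          apply div_le_div₀ (by positivity) hN2r (by positivity)
          exact pow_le_pow_left₀ hL0.le hlN1 _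
      _ = (Z : ℝ) / L ^ U / 2 * (4 * D / L) := by
          rw [pow_succ]
          have := (pow_pos hL0 U).ne'
          field_simp
          ring
      _ ≤ (Z : ℝ) / L ^ U / 2 * 1 := by
          apply mul_le_mul_of_nonneg_left _ (by positivity)
          rw [div_le_one hL0]
          linarith
      _ = _ := mul_one _
  have e2 : (s.toNat : ℝ) * (s.toNat + L) ≤ (Z : ℝ) / L ^ U / 2 := by
    rw [le_div_iff₀ (by norm_num), le_div_iff₀ (by positivity)]
    have hs0 : (0 : ℝ) ≤ s.toNat := Nat.cast_nonneg _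
    have e5 : (s.toNat : ℝ) * s.toNat ≤ (s.toNat : ℝ) * s.toNat * L :=
      le_mul_of_one_le_right (mul_nonneg hs0 hs0) hL1
    have e3 : (s.toNat : ℝ) * (s.toNat + L) ≤ (s.toNat * (s.toNat + 1) + 1) * L := by
      have e6 : (s.toNat : ℝ) * (s.toNat + L) = (s.toNat : ℝ) * s.toNat + s.toNat * L := by ring
      have e7 : ((s.toNat : ℝ) * (s.toNat + 1) + 1) * L =
        (s.toNat : ℝ) * s.toNat * L + s.toNat * L + L := by ring
      rw [e6, e7]
      linarith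
    have e4 : L ≤ √(Z : ℝ) := by simpa using b5
    calc (s.toNat : ℝ) * (s.toNat + L) * 2 * L ^ U ≤
          ((s.toNat * (s.toNat + 1) + 1) * L) * 2 * L ^ U := by gcongr
      _ = (2 * (s.toNat * (s.toNat + 1) + 1) * L ^ U) * L := by ring
      _ ≤ √(Z : ℝ) * √(Z : ℝ) := by gcongr
      _ = Z := Real.mul_self_sqrt hZpos.le
  linarith

end Pool.Agent.Zk78.SP
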