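import Mathlib
import Pool.Agent.Zk78.SP.Graph

/-!
# The Cauchy-Schwarz step: two copies of a graph glued along an edge
-/

set_option autoImplicit false

open Finset

namespace Pool.Agent.Zk78.SP

section

variable {n : ℕ} (e0 : Fin n × Fin n)

/-- the coordinates of the edge from `x`, the others from `y` -/
def mix (x y : Fin n → ℕ) : Fin n → ℕ := fun v => if v = e0.1 ∨ v = e0.2 then x v else y v

theorem mix_fst (x y : Fin n → ℕ) : mix e0 x y e0.1 = x e0.1 := by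
  unfold mix; rw [if_pos (Or.inl rfl)]

theorem mix_snd (x y : Fin n → ℕ) : mix e0 x y e0.2 = x e0.2 := by
  unfold mix; rw [if_pos (Or.inr rfl)]

theorem mem_bx {n Z : ℕ} {x : Fin n → ℕ} : x ∈ bx n Z ↔ ∀ i, x i ∈ Icc 1 Z := by
  unfold bx; rw [Fintype.mem_piFinset]

theorem mix_mem {Z : ℕ} {x y : Fin n → ℕ} (hx : x ∈ bx n Z) (hy : y ∈ bx n Z) :
    mix e0 x y ∈ bx n Z := by
  rw [mem_bx] at hx hy ⊢
  intro i
  unfold mix
  split_ifs
  exacts [hx i, hy i]

theorem mix_mix (x y : Fin n → ℕ) : mix e0 (mix e0 x y) (mix e0 y x) = x := by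
  funext v
  unfold mix
  split_ifs <;> rfl

theorem sum_mix (Z : ℕ) (H : (Fin n → ℕ) → ℝ) :
    ∑ x ∈ bx n Z, ∑ y ∈ bx n Z, H (mix e0 x y) = (Z : ℝ) ^ n * ∑ x ∈ bx n Z, H x := by
  have h1 : (Z : ℝ) ^ n * ∑ x ∈ bx n Z, H x = ∑ x ∈ bx n Z, ∑ _y ∈ bx n Z, H x := by
    rw [mul_sum]
    refine sum_congr rfl fun x _ => ?_
    rw [sum_const, card_bx, nsmul_eq_mul]
    push_cast
    rfl
  rw [h1, ← sum_product', ← sum_product']
  refine sum_bij' (fun z _ => (mix e0 z.1 z.2, mix e0 z.2 z.1))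
    (fun z _ => (mix e0 z.1 z.2, mix e0 z.2 z.1)) ?_ ?_ ?_ ?_ ?_
  · rintro ⟨x, y⟩ h
    rw [mem_product] at h ⊢
    exact ⟨mix_mem e0 h.1 h.2, mix_mem e0 h.2 h.1⟩
  · rintro ⟨x, y⟩ h
    rw [mem_product] at h ⊢
    exact ⟨mix_mem e0 h.1 h.2, mix_mem e0 h.2 h.1⟩
  · rintro ⟨x, y⟩ _
    simp only [mix_mix]
  · rintro ⟨x, y⟩ _
    simp only [mix_mix]
  · rintro ⟨x, y⟩ _
    rfl

theorem sum_app (m k Z : ℕ) (H : (Fin (m + k) → ℕ) → ℝ) :
    ∑ w ∈ bx (m + k) Z, H w = ∑ x ∈ bx m Z, ∑ y ∈ bx k Z, H (Fin.append x y) := by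
  rw [← sum_product']
  symm
  refine sum_bij' (fun z _ => Fin.append z.1 z.2)
    (fun w _ => (fun i => w (Fin.castAdd k i), fun i => w (Fin.natAdd m i))) ?_ ?_ ?_ ?_ ?_
  · rintro ⟨x, y⟩ h
    rw [mem_product, mem_bx, mem_bx] at h
    rw [mem_bx]
    intro i
    refine Fin.addCases (fun j => ?_) (fun j => ?_) i
    · rw [Fin.append_left]; exact h.1 j
    · rw [Fin.append_right]; exact h.2 j
  · intro w h
    rw [mem_bx] at h
    rw [mem_product, mem_bx, mem_bx]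
    exact ⟨fun i => h _, fun i => h _⟩
  · rintro ⟨x, y⟩ _
    simp only [Fin.append_left, Fin.append_right]
  · intro w _
    funext i
    refine Fin.addCases (fun j => ?_) (fun j => ?_) i
    · simp only [Fin.append_left]
    · simp only [Fin.append_right]
  · rintro ⟨x, y⟩ _
    rfl

/-- first copy -/
def phi1 (v : Fin n) : Fin (n + n + n) :=
  if v = e0.1 ∨ v = e0.2 then Fin.castAdd n (Fin.castAdd n v) else Fin.castAdd n (Fin.natAdd n v)

/-- second copy -/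
def phi2 (v : Fin n) : Fin (n + n + n) :=
  if v = e0.1 ∨ v = e0.2 then Fin.castAdd n (Fin.castAdd n v) else Fin.natAdd (n + n) v

/-- the label of a vertex -/
def lam (v : Fin (n + n + n)) : Fin n :=
  Fin.addCases (motive := fun _ => Fin n)
    (fun u => Fin.addCases (motive := fun _ => Fin n) (fun i => i) (fun i => i) u) (fun i => i) v

theorem lam_phi1 (v : Fin n) : lam (phi1 e0 v) = v := by
  unfold lam phi1
  split_ifs
  · simp
  · rw [Fin.addCases_left]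
    exact Fin.addCases_right v

theorem lam_phi2 (v : Fin n) : lam (phi2 e0 v) = v := by
  unfold lam phi2
  split_ifs
  · simp
  · exact Fin.addCases_right v

theorem app_phi1 (x y y' : Fin n → ℕ) (v : Fin n) :
    Fin.append (Fin.append x y) y' (phi1 e0 v) = mix e0 x y v := by
  unfold phi1 mix
  split_ifs
  · rw [Fin.append_left, Fin.append_left]
  · rw [Fin.append_left, Fin.append_right]

theorem app_phi2 (x y y' : Fin n → ℕ) (v : Fin n) :
    Fin.append (Fin.append x y) y' (phi2 e0 v) = mix e0 x y' v := by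
  unfold phi2 mix
  split_ifs
  · rw [Fin.append_left, Fin.append_left]
  · rw [Fin.append_right]

theorem phi1_inj : Function.Injective (phi1 e0) := fun u v h => by
  rw [← lam_phi1 e0 u, h, lam_phi1]

theorem phi2_inj : Function.Injective (phi2 e0) := fun u v h => by
  rw [← lam_phi2 e0 u, h, lam_phi2]

theorem phi_ne (u v : Fin n) (hv : ¬ (v = e0.1 ∨ v = e0.2)) : phi1 e0 u ≠ phi2 e0 v := by
  unfold phi2
  rw [if_neg hv]
  unfold phi1
  have h1 : ∀ w : Fin (n + n), Fin.castAdd n w ≠ Fin.natAdd (n + n) v := by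
    intro w h
    have := congrArg Fin.val h
    simp only [Fin.val_castAdd, Fin.val_natAdd] at this
    have := w.2
    omega
  split_ifs
  · exact h1 _
  · exact h1 _

/-- two copies of the graph glued along the edge `e0` (and isolated vertices) -/
def E3 (E : Finset (Fin n × Fin n)) : Finset (Fin (n + n + n) × Fin (n + n + n)) :=
  E.image (Prod.map (phi1 e0) (phi1 e0)) ∪ (E.erase e0).image (Prod.map (phi2 e0) (phi2 e0))

/-- the labels of an edge -/
def lab (e : Fin (n + n + n) × Fin (n + n + n)) : Fin n × Fin n := (lam e.1, lam e.2)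

variable {E : Finset (Fin n × Fin n)}

theorem E3_simp (hE : Simp E) : Simp (E3 e0 E) := by
  have h1 : ∀ e ∈ E3 e0 E, lab e ∈ E := by
    intro e he
    unfold E3 at he
    rw [mem_union, mem_image, mem_image] at he
    unfold lab
    rcases he with ⟨e', h, rfl⟩ | ⟨e', h, rfl⟩
    · simpa [lam_phi1] using h
    · simp only [Prod.map_fst, Prod.map_snd, lam_phi2]
      exact mem_of_mem_erase h
  intro e he
  have h2 := hE _ (h1 e he)
  refine ⟨fun h => h2.1 ?_, fun h => h2.2 ?_⟩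
  · unfold lab
    rw [h]
  · exact h1 _ h

theorem lab1 (e : Fin n × Fin n) : lab (Prod.map (phi1 e0) (phi1 e0) e) = e := by
  unfold lab
  simp [lam_phi1]

theorem lab2 (e : Fin n × Fin n) : lab (Prod.map (phi2 e0) (phi2 e0) e) = e := by
  unfold lab
  simp [lam_phi2]

theorem prod_E3 (hE : Simp E) (he0 : e0 ∈ E)
    (G : Fin (n + n + n) × Fin (n + n + n) → ℝ) :
    ∏ e ∈ E3 e0 E, G e = (∏ e ∈ E, G (Prod.map (phi1 e0) (phi1 e0) e)) *
      ∏ e ∈ E.erase e0, G (Prod.map (phi2 e0) (phi2 e0) e) := by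
  unfold E3
  rw [prod_union, prod_image, prod_image]
  · intro a _ b _ h
    rw [← lab2 e0 a, ← lab2 e0 b, h]
  · intro a _ b _ h
    rw [← lab1 e0 a, ← lab1 e0 b, h]
  · rw [disjoint_left]
    intro e he he'
    rw [mem_image] at he he'
    obtain ⟨a, ha, rfl⟩ := he
    obtain ⟨b, hb, hab⟩ := he'
    rw [mem_erase] at hb
    have hba : b = a := by
      rw [← lab2 e0 b, hab, lab1]
    subst hba
    have hbE := hE b hb.2
    -- one of the end points is not one of the edge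
    have h3 : ¬ (b.1 = e0.1 ∨ b.1 = e0.2) ∨ ¬ (b.2 = e0.1 ∨ b.2 = e0.2) := by
      by_contra hcon
      push Not at hcon
      obtain ⟨h4, h5⟩ := hcon
      rcases h4 with h4 | h4
      · rcases h5 with h5 | h5
        · exact hbE.1 (h4.trans h5.symm)
        · exact hb.1 (Prod.ext h4 h5)
      · rcases h5 with h5 | h5
        · apply hbE.2
          have : (b.2, b.1) = e0 := Prod.ext h5 h4
          rw [this]
          exact he0
        · exact hbE.1 (h4.trans h5.symm)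
    rcases h3 with h3 | h3
    · exact phi_ne e0 b.1 b.1 h3 (congrArg Prod.fst hab).symm
    · exact phi_ne e0 b.2 b.2 h3 (congrArg Prod.snd hab).symm

theorem GS_E3 (Z : ℕ) (hE : Simp E) (he0 : e0 ∈ E) (f : Fin n × Fin n → ℕ → ℝ) :
    GS Z (E3 e0 E) (fun e => f (lab e)) = ∑ x ∈ bx n Z, tr Z (f e0) ((x e0.1 : ℤ) - x e0.2) *
      (∑ y ∈ bx n Z, ∏ e ∈ E.erase e0, tr Z (f e) ((mix e0 x y e.1 : ℤ) - mix e0 x y e.2)) ^ 2 := by
  unfold GS
  rw [sum_app, sum_app]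
  refine sum_congr rfl fun x _ => ?_
  rw [sq, sum_mul_sum, mul_sum]
  refine sum_congr rfl fun y _ => ?_
  rw [mul_sum]
  refine sum_congr rfl fun y' _ => ?_
  rw [prod_E3 e0 hE he0]
  simp only [lab1, lab2, Prod.map_fst, Prod.map_snd, app_phi1, app_phi2]
  rw [← mul_prod_erase E _ he0, mix_fst, mix_snd]
  ring

/-- the sum of a function of one difference -/
theorem sum_one (Z : ℕ) (h12 : e0.1 ≠ e0.2) (g : ℤ → ℝ) (S : ℝ)
    (hg : ∀ v ∈ Icc 1 Z, ∑ u ∈ Icc 1 Z, g ((u : ℤ) - v) ≤ S) :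
    (Z : ℝ) * ∑ x ∈ bx n Z, g ((x e0.1 : ℤ) - x e0.2) ≤ (Z : ℝ) ^ n * S := by
  have h1 := sum_update (R := ℝ) (fun _ : Fin n => Icc 1 Z) e0.1
    (fun x => g ((x e0.1 : ℤ) - x e0.2))
  simp only [Nat.card_Icc, Nat.add_sub_cancel] at h1
  unfold bx
  rw [← h1]
  calc _ ≤ ∑ _x ∈ bx n Z, S := by
        refine sum_le_sum fun x hx => ?_
        simp only [Function.update_self, Function.update_of_ne h12.symm]
        exact hg _ (mem_bx.1 hx e0.2)
    _ = _ := by rw [sum_const, card_bx, nsmul_eq_mul]; push_cast; rfl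

open Classical in
/-- the Cauchy-Schwarz inequality -/
theorem cs (Z : ℕ) (hE : Simp E) (he0 : e0 ∈ E) (f : Fin n × Fin n → ℕ → ℝ)
    (hf : ∀ e k, 0 ≤ f e k) (P : ℤ → Prop) (S : ℝ)
    (hS : ∑ k ∈ (Icc 1 Z).filter (fun k : ℕ => P k), f e0 k ≤ S) (A : ℝ) (hA0 : 0 ≤ A)
    (hA : A ≤ ∑ x ∈ bx n Z, if P ((x e0.1 : ℤ) - x e0.2) then
      ∏ e ∈ E, tr Z (f e) ((x e.1 : ℤ) - x e.2) else 0) :
    (Z : ℝ) * ((Z : ℝ) ^ n * A) ^ 2 ≤ ((Z : ℝ) ^ n * S) *
      GS Z (E3 e0 E) (fun e => f (lab e)) := by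
  have htr : ∀ e k, 0 ≤ tr Z (f e) k := by
    intro e k
    unfold tr
    split_ifs
    · exact hf e _
    · exact le_rfl
  obtain ⟨g, hgd⟩ : ∃ g : ℤ → ℝ, ∀ k, g k = if P k then tr Z (f e0) k else 0 := ⟨_, fun _ => rfl⟩
  have hg0 : ∀ k, 0 ≤ g k := by
    intro k
    rw [hgd]
    split_ifs
    · exact htr e0 k
    · exact le_rfl
  obtain ⟨R, hR⟩ : ∃ R : (Fin n → ℕ) → ℝ, ∀ x, R x = ∏ e ∈ E.erase e0,
    tr Z (f e) ((x e.1 : ℤ) - x e.2) := ⟨_, fun _ => rfl⟩
  obtain ⟨T, hT⟩ : ∃ T : (Fin n → ℕ) → ℝ, ∀ x, T x = ∑ y ∈ bx n Z, R (mix e0 x y) :=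
    ⟨_, fun _ => rfl⟩
  have h1 : (Z : ℝ) ^ n * A ≤ ∑ x ∈ bx n Z, g ((x e0.1 : ℤ) - x e0.2) * T x := by
    have h2 : ∑ x ∈ bx n Z, g ((x e0.1 : ℤ) - x e0.2) * T x =
        (Z : ℝ) ^ n * ∑ x ∈ bx n Z, g ((x e0.1 : ℤ) - x e0.2) * R x := by
      rw [← sum_mix e0 Z (fun x => g ((x e0.1 : ℤ) - x e0.2) * R x)]
      refine sum_congr rfl fun x _ => ?_
      rw [hT, mul_sum]
      refine sum_congr rfl fun y _ => ?_
      rw [mix_fst, mix_snd]
    rw [h2]
    apply mul_le_mul_of_nonneg_left _ (by positivity)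
    refine hA.trans (le_of_eq (sum_congr rfl fun x _ => ?_))
    rw [hgd, hR]
    split_ifs
    · rw [mul_prod_erase E (fun e => tr Z (f e) ((x e.1 : ℤ) - x e.2)) he0]
    · rw [zero_mul]
  have h2 : (∑ x ∈ bx n Z, g ((x e0.1 : ℤ) - x e0.2) * T x) ^ 2 ≤
      (∑ x ∈ bx n Z, g ((x e0.1 : ℤ) - x e0.2)) *
      ∑ x ∈ bx n Z, g ((x e0.1 : ℤ) - x e0.2) * T x ^ 2 := by
    apply sum_sq_le_sum_mul_sum_of_sq_le_mul
    · intro x _; exact hg0 _
    · intro x _; exact mul_nonneg (hg0 _) (sq_nonneg _)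
    · intro x _
      exact le_of_eq (by ring)
  have h3 : ∑ x ∈ bx n Z, g ((x e0.1 : ℤ) - x e0.2) * T x ^ 2 ≤
      GS Z (E3 e0 E) (fun e => f (lab e)) := by
    rw [GS_E3 e0 Z hE he0]
    refine sum_le_sum fun x _ => ?_
    have h4 : T x = ∑ y ∈ bx n Z, ∏ e ∈ E.erase e0,
        tr Z (f e) ((mix e0 x y e.1 : ℤ) - mix e0 x y e.2) := by
      rw [hT]
      exact sum_congr rfl fun y _ => hR _
    rw [← h4]
    apply mul_le_mul_of_nonneg_right _ (sq_nonneg _)
    rw [hgd]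
    split_ifs
    · exact le_rfl
    · exact htr _ _
  have h4 : (Z : ℝ) * ∑ x ∈ bx n Z, g ((x e0.1 : ℤ) - x e0.2) ≤ (Z : ℝ) ^ n * S := by
    apply sum_one e0 Z (hE e0 he0).1 g S
    intro v hv
    refine le_trans ?_ hS
    rw [mem_Icc] at hv
    have h5 : ∑ u ∈ Icc 1 Z, g ((u : ℤ) - v) =
        ∑ u ∈ (Icc 1 Z).filter (fun u => v < u), g ((u : ℤ) - v) := by
      rw [sum_filter]
      refine sum_congr rfl fun u _ => ?_
      split_ifs with h6
      · rfl
      · rw [hgd]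
        unfold tr
        rw [if_neg (show ¬ (1 ≤ (u : ℤ) - v ∧ (u : ℤ) - v ≤ Z) by omega)]
        split_ifs <;> rfl
    rw [h5]
    have h6 : ∑ u ∈ (Icc 1 Z).filter (fun u => v < u), g ((u : ℤ) - v) =
        ∑ k ∈ ((Icc 1 Z).filter (fun u => v < u)).image (fun u => u - v), g (k : ℤ) := by
      rw [sum_image]
      · refine sum_congr rfl fun u hu => ?_
        rw [mem_filter] at hu
        rw [Nat.cast_sub hu.2.le]
      · intro a ha b hb hab
        have ha' := mem_filter.1 (mem_coe.1 ha)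
        have hb' := mem_filter.1 (mem_coe.1 hb)
        have hab' : a - v = b - v := hab
        omega
    rw [h6]
    have h7 : ((Icc 1 Z).filter (fun u => v < u)).image (fun u => u - v) ⊆ Icc 1 Z := by
      intro k hk
      rw [mem_image] at hk
      obtain ⟨u, hu, rfl⟩ := hk
      rw [mem_filter, mem_Icc] at hu
      rw [mem_Icc]
      omega
    refine (sum_le_sum_of_subset_of_nonneg h7 (fun k _ _ => hg0 _)).trans ?_
    rw [sum_filter]
    refine le_of_eq (sum_congr rfl fun k hk => ?_)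
    rw [mem_Icc] at hk
    rw [hgd]
    unfold tr
    rw [if_pos (show 1 ≤ (k : ℤ) ∧ (k : ℤ) ≤ Z by omega), Int.toNat_natCast]
  have h5 : 0 ≤ GS Z (E3 e0 E) (fun e => f (lab e)) := by
    unfold GS
    exact sum_nonneg fun x _ => prod_nonneg fun e _ => htr _ _
  calc (Z : ℝ) * ((Z : ℝ) ^ n * A) ^ 2 ≤
        (Z : ℝ) * (∑ x ∈ bx n Z, g ((x e0.1 : ℤ) - x e0.2) * T x) ^ 2 := by
        apply mul_le_mul_of_nonneg_left _ (Nat.cast_nonneg _)
        exact pow_le_pow_left₀ (by positivity) h1 2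
    _ ≤ (Z : ℝ) * ((∑ x ∈ bx n Z, g ((x e0.1 : ℤ) - x e0.2)) *
          GS Z (E3 e0 E) (fun e => f (lab e))) := by
        apply mul_le_mul_of_nonneg_left _ (Nat.cast_nonneg _)
        exact h2.trans (mul_le_mul_of_nonneg_left h3 (sum_nonneg fun x _ => hg0 _))
    _ = ((Z : ℝ) * ∑ x ∈ bx n Z, g ((x e0.1 : ℤ) - x e0.2)) *
          GS Z (E3 e0 E) (fun e => f (lab e)) := by ring
    _ ≤ _ := mul_le_mul_of_nonneg_right h4 h5

end

end Pool.Agent.Zk78.SP
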