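import Mathlib
import Pool.Agent.Zk78.SP.Ap

/-!
# Graph sums of the von Mangoldt function
-/

set_option autoImplicit false

open Finset

namespace Pool.Agent.Zk78.SP

open Pool.Agent.H373R2.T7 Pool.Agent.H807R2.Dav

section

variable {n : ℕ} {E : Finset (Fin n × Fin n)} {D : ℕ} {s : Fin n × Fin n → ℤ}

theorem fL_nonneg (e : Fin n × Fin n) (k : ℕ) : 0 ≤ fL D s e k :=
  ArithmeticFunction.vonMangoldt_nonneg

theorem fL_le (hD : 1 ≤ D) (e : Fin n × Fin n) : ∃ Z0 : ℕ, ∀ Z : ℕ, Z0 ≤ Z → ∀ k ∈ Icc 1 Z,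
    fL D s e k ≤ 2 * Real.log Z := by
  refine ⟨D + (s e).natAbs + 2, fun Z hZ k hk => ?_⟩
  rw [mem_Icc] at hk
  unfold fL
  have h1 : ((D : ℤ) * k + s e).toNat ≤ Z ^ 2 := by
    have h2 : (D : ℤ) * k ≤ D * Z := by
      apply mul_le_mul_of_nonneg_left _ (by positivity)
      exact_mod_cast hk.2
    have h3 : (D : ℤ) + (s e).natAbs + 2 ≤ Z := by exact_mod_cast hZ
    have h4 : s e ≤ (s e).natAbs := by omega
    have h5 : (D : ℤ) * Z + (s e).natAbs ≤ (Z : ℤ) ^ 2 := by nlinarith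
    rw [Int.toNat_le]
    push_cast
    linarith
  have hZ1 : (1 : ℝ) ≤ Z := by exact_mod_cast (by omega : 1 ≤ Z)
  rcases Nat.eq_zero_or_pos ((D : ℤ) * k + s e).toNat with h | h
  · rw [h]
    simp only [ArithmeticFunction.map_zero]
    have := Real.log_nonneg hZ1
    linarith
  · refine ArithmeticFunction.vonMangoldt_le_log.trans ?_
    have h2 : Real.log (((D : ℤ) * k + s e).toNat : ℝ) ≤ Real.log ((Z : ℝ) ^ 2) := by
      apply Real.log_le_log (by exact_mod_cast h)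
      exact_mod_cast h1
    rw [Real.log_pow] at h2
    push_cast at h2
    exact h2

/-- the weights can be replaced by the model -/
theorem main_diff (hE : Simp E) (hD : 2 ≤ D) : ∃ B : ℕ, ∀ δ : ℝ, 0 < δ → ∃ Z0 : ℕ, ∀ Z : ℕ,
    Z0 ≤ Z → |GS Z E (fL D s) - GS Z E (gM D s (zB B Z))| ≤ δ * (Z : ℝ) ^ n := by
  classical
  obtain ⟨B, hB⟩ := sup_ap D (E.card + 1) hD
  refine ⟨B, fun δ hδ => ?_⟩
  choose Z1 hZ1 using hB
  choose Z2 hZ2 using (fun e : Fin n × Fin n => fL_le (D := D) (s := s) (by omega) e)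
  obtain ⟨Z3, h3⟩ := zB_le B
  obtain ⟨Z4, h4⟩ := Vz_inv_small (B + 1)
  obtain ⟨Z5, h5⟩ := ev_L' (max 1 (E.card * 2 ^ E.card / δ))
  refine ⟨max (max (E.sup (fun e => Z1 (s e))) (E.sup Z2)) (max (max Z3 Z4) (max Z5 1)),
    fun Z hZ => ?_⟩
  have hZ1' : E.sup (fun e => Z1 (s e)) ≤ Z :=
    le_trans (le_trans (le_max_left _ _) (le_max_left _ _)) hZ
  have hZ2' : E.sup Z2 ≤ Z := le_trans (le_trans (le_max_right _ _) (le_max_left _ _)) hZ
  have hZ3' : Z3 ≤ Z :=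
    le_trans (le_trans (le_trans (le_max_left _ _) (le_max_left _ _)) (le_max_right _ _)) hZ
  have hZ4' : Z4 ≤ Z :=
    le_trans (le_trans (le_trans (le_max_right _ _) (le_max_left _ _)) (le_max_right _ _)) hZ
  have hZ5' : Z5 ≤ Z :=
    le_trans (le_trans (le_trans (le_max_left _ _) (le_max_right _ _)) (le_max_right _ _)) hZ
  have hZ6' : 1 ≤ Z :=
    le_trans (le_trans (le_trans (le_max_right _ _) (le_max_right _ _)) (le_max_right _ _)) hZ
  have b3 := h3 Z hZ3'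
  have hz2 : 2 ≤ zB B Z := by unfold zB; omega
  have b4 := h4 Z hZ4' (zB B Z) (by omega) b3
  have b5 := h5 Z hZ5'
  set L := Real.log Z with hLd
  have hL1 : 1 ≤ L := (le_max_left _ _).trans b5
  have hL2 : E.card * 2 ^ E.card / δ ≤ L := (le_max_right _ _).trans b5
  have hL0 : 0 < L := by linarith
  have key := repl Z hZ6' E hE (fL D s) (gM D s (zB B Z)) (2 * L) (1 / L ^ (E.card + 1))
    (by linarith) (by positivity) (by
      intro e he k hk
      rw [abs_of_nonneg (fL_nonneg e k)]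
      exact hZ2 e Z ((le_sup he).trans hZ2') k hk) (by
      intro e he k hk
      rw [abs_of_nonneg (gM_nonneg _ e k)]
      have := gM_le (D := D) (s := s) (zB B Z) e k
      linarith) (by
      intro e he θ
      have h6 := hZ1 (s e) Z ((le_sup (f := fun e => Z1 (s e)) he).trans hZ1') θ
      refine le_trans (le_of_eq ?_) (h6.trans (le_of_eq ?_))
      · rfl
      · rw [← hLd]; ring)
  refine key.trans ?_
  have e1 : (E.card : ℝ) * (1 / L ^ (E.card + 1) * (2 * L) ^ E.card * (Z : ℝ) ^ n) =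
      (E.card * 2 ^ E.card / L) * (Z : ℝ) ^ n := by
    rw [mul_pow, pow_succ]
    have := (pow_pos hL0 E.card).ne'
    field_simp
  rw [e1]
  apply mul_le_mul_of_nonneg_right _ (by positivity)
  rw [div_le_iff₀ hL0]
  rw [div_le_iff₀ hδ] at hL2
  linarith

theorem up (hE : Simp E) (hD : 2 ≤ D) : ∃ C : ℝ, 0 < C ∧ ∃ Z0 : ℕ, ∀ Z : ℕ, Z0 ≤ Z →
    GS Z E (fL D s) ≤ C * (Z : ℝ) ^ n := by
  obtain ⟨B, hB⟩ := main_diff (s := s) hE hD
  obtain ⟨Z1, h1⟩ := hB 1 one_pos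
  obtain ⟨C, hC, hm⟩ := model_upper (s := s) hE (show 0 < D by omega)
  obtain ⟨Z2, h2⟩ := hm (B + 1)
  obtain ⟨Z3, h3⟩ := zB_le B
  refine ⟨C + 1, by linarith, max Z1 (max Z2 Z3), fun Z hZ => ?_⟩
  have a1 := (abs_le.1 (h1 Z (le_trans (le_max_left _ _) hZ))).2
  have a3 := h3 Z (le_trans (le_trans (le_max_right _ _) (le_max_right _ _)) hZ)
  have hz2 : 2 ≤ zB B Z := by unfold zB; omega
  have a2 := h2 Z (le_trans (le_trans (le_max_left _ _) (le_max_right _ _)) hZ) (zB B Z)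
    (by omega) a3
  linarith

theorem lo (hn : 0 < n) (hE : Simp E) (hord : ∀ e ∈ E, e.2 < e.1) (hD2 : 2 ≤ D)
    (hD : ∀ p : ℕ, p.Prime → p < 2 * E.card → p ∣ D)
    (hs : ∀ e ∈ E, IsCoprime (s e) (D : ℤ)) : ∃ c : ℝ, 0 < c ∧ ∃ Z0 : ℕ, ∀ Z : ℕ, Z0 ≤ Z →
    c * (Z : ℝ) ^ n ≤ GS Z E (fL D s) := by
  obtain ⟨c, hc, hm⟩ := model_lower hn hE hord (show 0 < D by omega) hD hs
  obtain ⟨B, hB⟩ := main_diff (s := s) hE hD2
  obtain ⟨Z1, h1⟩ := hB (c / 2) (by positivity)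
  obtain ⟨Z2, h2⟩ := hm (B + 1)
  obtain ⟨Z3, h3⟩ := zB_le B
  refine ⟨c / 2, by positivity, max Z1 (max Z2 Z3), fun Z hZ => ?_⟩
  have a1 := (abs_le.1 (h1 Z (le_trans (le_max_left _ _) hZ))).1
  have a3 := h3 Z (le_trans (le_trans (le_max_right _ _) (le_max_right _ _)) hZ)
  have hz2 : 2 ≤ zB B Z := by unfold zB; omega
  have a2 := h2 Z (le_trans (le_trans (le_max_left _ _) (le_max_right _ _)) hZ) (zB B Z)
    (by omega) a3
  linarith

end

end Pool.Agent.Zk78.SP
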