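import Mathlib
import Pool.Agent.Zk78.SP.Main
import Pool.Agent.Zk78.SP.CS
import Pool.Agent.TH899.UG.BoxP

/-!
# Cliques of shifted primes
-/

set_option autoImplicit false

open Finset

namespace Pool.Agent.Zk78.SP

open Pool.Agent.H373R2.T7 Pool.Agent.H807R2.Dav

/-- the complete graph -/
def K4 : Finset (Fin 4 × Fin 4) := univ.filter (fun e => e.2 < e.1)

theorem mem_K4 {e : Fin 4 × Fin 4} : e ∈ K4 ↔ e.2 < e.1 := by
  unfold K4; rw [mem_filter]; exact ⟨fun h => h.2, fun h => ⟨mem_univ _, h⟩⟩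

theorem K4_card : K4.card = 6 := by decide

theorem K4_simp : Simp K4 := by
  intro e he
  rw [mem_K4] at he
  refine ⟨he.ne', fun h => ?_⟩
  rw [mem_K4] at h
  exact lt_asymm he h

open Classical in
/-- positive density for one of the edges -/
theorem dens (D : ℕ) (hD2 : 2 ≤ D) (hD : ∀ p : ℕ, p.Prime → p < 12 → p ∣ D)
    (s : Fin 4 × Fin 4 → ℤ) (hs : ∀ e ∈ K4, IsCoprime (s e) (D : ℤ))
    (P : Fin 4 × Fin 4 → ℤ → Prop) (K : ℕ)
    (hbad : ∀ A : Fin 4 → Fin K → ℕ, (∀ i, Function.Injective (A i)) →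
      (∀ c : Fin 4 → Fin K, ∀ e ∈ K4, 1 ≤ (A e.1 (c e.1) : ℤ) - A e.2 (c e.2)) →
      ∃ c : Fin 4 → Fin K, ∃ e ∈ K4, P e ((A e.1 (c e.1) : ℤ) - A e.2 (c e.2))) :
    ∃ c : ℝ, 0 < c ∧ ∃ Z0 : ℕ, ∀ Z : ℕ, Z0 ≤ Z → ∃ e ∈ K4,
      c * Z ≤ ∑ k ∈ (Icc 1 Z).filter (fun k : ℕ => P e k), fL D s e k := by
  obtain ⟨c0, hc0, Z1, h1⟩ := lo (s := s) (by norm_num : 0 < 4) K4_simp
    (fun e he => mem_K4.1 he) hD2 (by rw [K4_card]; exact hD) hs
  set c1 : ℝ := min c0 1 with hc1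
  have hc1p : 0 < c1 := lt_min hc0 one_pos
  have hc1l : c1 ≤ 1 := min_le_right _ _
  have hc10 : c1 ≤ c0 := min_le_left _ _
  have hup : ∀ e0 : Fin 4 × Fin 4, ∃ C : ℝ, 0 < C ∧ ∃ Z0 : ℕ, ∀ Z : ℕ, Z0 ≤ Z →
      GS Z (E3 e0 K4) (fun e => fL D s (lab e)) ≤ C * (Z : ℝ) ^ 12 := by
    intro e0
    exact up (s := fun e => s (lab e)) (E3_simp e0 K4_simp) hD2
  choose C hC Z2 h2 using hup
  choose Z3 h3 using (fun e : Fin 4 × Fin 4 => fL_le (D := D) (s := s) (by omega) e)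
  obtain ⟨C4, E4, hC4, hbox⟩ := Pool.Agent.TH899.UG.box_pow K 4
  set Cm : ℝ := ∑ e ∈ K4, C e with hCm
  have hCme : ∀ e ∈ K4, C e ≤ Cm := fun e he => single_le_sum (f := C) (fun e _ => (hC e).le) he
  have hCm0 : 0 < Cm := by
    have h4 : ((1, 0) : Fin 4 × Fin 4) ∈ K4 := by decide
    exact (hC _).trans_le (hCme _ h4)
  obtain ⟨Z5, h5⟩ := ev_L' 1
  obtain ⟨Z6, h6⟩ := ev_log' (6 * E4) (C4 * (2 / c1) ^ E4 * 2 ^ (6 * E4))
  refine ⟨(c1 / 12) ^ 2 / Cm, by positivity,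
    max (max Z1 (K4.sup Z2)) (max (max (K4.sup Z3) Z5) (max Z6 1)), fun Z hZ => ?_⟩
  have hZ1 : Z1 ≤ Z := le_trans (le_trans (le_max_left _ _) (le_max_left _ _)) hZ
  have hZ2 : K4.sup Z2 ≤ Z := le_trans (le_trans (le_max_right _ _) (le_max_left _ _)) hZ
  have hZ3 : K4.sup Z3 ≤ Z :=
    le_trans (le_trans (le_trans (le_max_left _ _) (le_max_left _ _)) (le_max_right _ _)) hZ
  have hZ5 : Z5 ≤ Z :=
    le_trans (le_trans (le_trans (le_max_right _ _) (le_max_left _ _)) (le_max_right _ _)) hZ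
  have hZ6 : Z6 ≤ Z :=
    le_trans (le_trans (le_trans (le_max_left _ _) (le_max_right _ _)) (le_max_right _ _)) hZ
  have hZ7 : 1 ≤ Z :=
    le_trans (le_trans (le_trans (le_max_right _ _) (le_max_right _ _)) (le_max_right _ _)) hZ
  have hL1 := h5 Z hZ5
  have b6 := h6 Z hZ6
  have hZr : (1 : ℝ) ≤ Z := by exact_mod_cast hZ7
  have hZ0 : (0 : ℝ) < Z := by linarith
  set L := Real.log Z with hLd
  have hL0 : 0 < L := by linarith
  obtain ⟨W, hW⟩ : ∃ W : (Fin 4 → ℕ) → ℝ, ∀ x, W x = ∏ e ∈ K4,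
    tr Z (fL D s e) ((x e.1 : ℤ) - x e.2) := ⟨_, fun _ => rfl⟩
  have hW0 : ∀ x, 0 ≤ W x := by
    intro x
    rw [hW]
    exact prod_nonneg fun e _ => tr_nonneg (fun k => fL_nonneg e k) _
  have hWle : ∀ x, W x ≤ (2 * L) ^ 6 := by
    intro x
    rw [hW, ← K4_card, ← prod_const]
    refine prod_le_prod (fun e _ => tr_nonneg (fun k => fL_nonneg e k) _) fun e he => ?_
    have h7 := tr_abs_le (Z := Z) (f := fL D s e) (L := 2 * L) (by linarith) (by
      intro k hk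
      rw [abs_of_nonneg (fL_nonneg e k)]
      exact h3 e Z ((le_sup he).trans hZ3) k hk) ((x e.1 : ℤ) - x e.2)
    exact (le_abs_self _).trans h7
  have hlow : c1 * (Z : ℝ) ^ 4 ≤ ∑ x ∈ bx 4 Z, W x := by
    have h7 := h1 Z hZ1
    unfold GS at h7
    simp only [hW]
    refine le_trans ?_ h7
    exact mul_le_mul_of_nonneg_right hc10 (by positivity)
  -- the bad points
  set T := (bx 4 Z).filter (fun x => (∀ e ∈ K4, 1 ≤ (x e.1 : ℤ) - x e.2) ∧
    ∀ e ∈ K4, ¬ P e ((x e.1 : ℤ) - x e.2)) with hT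
  set ε : ℝ := c1 / 2 / (2 * L) ^ 6 with hε
  have hε0 : 0 < ε := by positivity
  have h2L : (1 : ℝ) ≤ (2 * L) ^ 6 := one_le_pow₀ (by linarith)
  have hε1 : ε ≤ 1 := by
    rw [hε, div_le_one (by positivity)]
    linarith
  have hTcard : (T.card : ℝ) < ε * (Z : ℝ) ^ 4 := by
    by_contra hcon
    push Not at hcon
    have hV : ∀ _i : Fin 4, C4 / ε ^ E4 ≤ (((Icc 1 Z).card : ℕ) : ℝ) := by
      intro _
      rw [Nat.card_Icc, Nat.add_sub_cancel, hε]
      have h7 : C4 / (c1 / 2 / (2 * L) ^ 6) ^ E4 =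
          C4 * (2 / c1) ^ E4 * 2 ^ (6 * E4) * L ^ (6 * E4) := by
        rw [div_pow, div_pow, div_pow, ← pow_mul, mul_pow]
        field_simp
      rw [h7]
      refine b6.trans ?_
      rw [Real.sqrt_le_left (by positivity)]
      nlinarith
    obtain ⟨A, hA1, hA2⟩ := hbox ε hε0 hε1 ℕ (fun _ => Icc 1 Z) hV T
      (by rw [hT]; exact filter_subset _ _) (by
        rw [prod_const, card_univ, Fintype.card_fin, Nat.card_Icc, Nat.add_sub_cancel]
        exact hcon)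
    obtain ⟨c, e, he, hP⟩ := hbad A hA1 (by
      intro c e he
      have h7 := hA2 c
      rw [hT, mem_filter] at h7
      exact h7.2.1 e he)
    have h7 := hA2 c
    rw [hT, mem_filter] at h7
    exact h7.2.2 e he hP
  have hTsum : ∑ x ∈ T, W x ≤ c1 / 2 * (Z : ℝ) ^ 4 := by
    calc ∑ x ∈ T, W x ≤ ∑ _x ∈ T, (2 * L) ^ 6 := sum_le_sum fun x _ => hWle x
      _ = T.card * (2 * L) ^ 6 := by rw [sum_const, nsmul_eq_mul]
      _ ≤ (ε * (Z : ℝ) ^ 4) * (2 * L) ^ 6 := by gcongr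
      _ = _ := by rw [hε]; field_simp
  have hsplit : ∑ x ∈ bx 4 Z, W x ≤ ∑ x ∈ T, W x + ∑ e ∈ K4, ∑ x ∈ bx 4 Z,
      (if P e ((x e.1 : ℤ) - x e.2) then W x else 0) := by
    rw [sum_comm]
    have h7 : ∑ x ∈ T, W x = ∑ x ∈ bx 4 Z, if x ∈ T then W x else 0 := by
      rw [← sum_filter]
      congr 1
      ext x
      constructor
      · intro h
        exact mem_filter.2 ⟨(mem_filter.1 h).1, h⟩
      · intro h
        exact (mem_filter.1 h).2
    rw [h7, ← sum_add_distrib]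
    refine sum_le_sum fun x hx => ?_
    have h8 : 0 ≤ ∑ e ∈ K4, (if P e ((x e.1 : ℤ) - x e.2) then W x else 0) :=
      sum_nonneg fun e _ => by
        split_ifs
        · exact hW0 x
        · exact le_rfl
    by_cases hxT : x ∈ T
    · rw [if_pos hxT]; linarith
    · rw [if_neg hxT, zero_add]
      by_cases hdiff : ∀ e ∈ K4, 1 ≤ (x e.1 : ℤ) - x e.2
      · have h9 : ∃ e ∈ K4, P e ((x e.1 : ℤ) - x e.2) := by
          by_contra hcon
          push Not at hcon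
          apply hxT
          rw [hT, mem_filter]
          exact ⟨hx, hdiff, hcon⟩
        obtain ⟨e, he, hP⟩ := h9
        refine le_trans ?_ (single_le_sum (f := fun e => if P e ((x e.1 : ℤ) - x e.2) then W x
          else 0) (fun e _ => ?_) he)
        · simp only [if_pos hP]
          exact le_rfl
        · split_ifs
          · exact hW0 x
          · exact le_rfl
      · push Not at hdiff
        obtain ⟨e, he, h9⟩ := hdiff
        have h10 : W x = 0 := by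
          rw [hW]
          refine prod_eq_zero he ?_
          unfold tr
          rw [if_neg]
          omega
        rw [h10]
        refine sum_nonneg fun e _ => ?_
        split_ifs <;> exact le_rfl
  -- one of the edges
  obtain ⟨e, he, hbig⟩ : ∃ e ∈ K4, c1 / 12 * (Z : ℝ) ^ 4 ≤
      ∑ x ∈ bx 4 Z, (if P e ((x e.1 : ℤ) - x e.2) then W x else 0) := by
    by_contra hcon
    push Not at hcon
    have h7 : ∑ e ∈ K4, ∑ x ∈ bx 4 Z, (if P e ((x e.1 : ℤ) - x e.2) then W x else 0) <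
        ∑ _e ∈ K4, c1 / 12 * (Z : ℝ) ^ 4 := by
      apply sum_lt_sum_of_nonempty
      · exact ⟨(1, 0), by decide⟩
      · exact hcon
    rw [sum_const, K4_card, nsmul_eq_mul] at h7
    push_cast at h7
    have : (6 : ℝ) * (c1 / 12 * (Z : ℝ) ^ 4) = c1 / 2 * (Z : ℝ) ^ 4 := by ring
    linarith
  refine ⟨e, he, ?_⟩
  set S := ∑ k ∈ (Icc 1 Z).filter (fun k : ℕ => P e k), fL D s e k with hS
  have hS0 : 0 ≤ S := sum_nonneg fun k _ => fL_nonneg e k
  have hcs := cs e Z K4_simp he (fL D s) (fun e k => fL_nonneg e k) (P e) S le_rfl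
    (c1 / 12 * (Z : ℝ) ^ 4) (by positivity) (by
      refine hbig.trans (le_of_eq (sum_congr rfl fun x _ => ?_))
      rw [hW])
  have hu := h2 e Z ((le_sup he).trans hZ2)
  have h7 : (Z : ℝ) * ((Z : ℝ) ^ 4 * (c1 / 12 * (Z : ℝ) ^ 4)) ^ 2 ≤
      ((Z : ℝ) ^ 4 * S) * (Cm * (Z : ℝ) ^ 12) := by
    refine hcs.trans ?_
    apply mul_le_mul_of_nonneg_left _ (by positivity)
    refine hu.trans ?_
    exact mul_le_mul_of_nonneg_right (hCme e he) (by positivity)
  have h8 : (Z : ℝ) ^ 16 * ((c1 / 12) ^ 2 * Z) ≤ (Z : ℝ) ^ 16 * (Cm * S) := by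
    refine le_trans (le_of_eq ?_) (h7.trans (le_of_eq ?_))
    · ring
    · ring
  have h9 := le_of_mul_le_mul_left h8 (by positivity)
  rw [div_mul_eq_mul_div, div_le_iff₀ hCm0]
  linarith

end Pool.Agent.Zk78.SP
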