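import Mathlib
import Pool.Agent.Zk78.SP.Cliq
import Pool.Agent.Y877.Consec2

/-!
# The choice of the parameters
-/

set_option autoImplicit false

open Finset

namespace Pool.Agent.Zk78.SP

open Pool.Agent.W59.GB Pool.Agent.H947R3.GM

section

variable (N : ℕ) (s : ℤ) (R : ℕ)

open Classical in
/-- the primes up to `R` which divide neither `N` nor `s` -/
noncomputable def W0 : ℕ :=
  ∏ p ∈ (Icc 1 R).filter (fun p : ℕ => p.Prime ∧ ¬ p ∣ N ∧ ¬ (p : ℤ) ∣ s), p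

open Classical in
/-- the primes up to `R` which divide `s` -/
noncomputable def P0 : ℕ := ∏ p ∈ (Icc 1 R).filter (fun p : ℕ => p.Prime ∧ (p : ℤ) ∣ s), p

theorem W0_pos : 0 < W0 N s R := by
  classical
  unfold W0
  exact prod_pos fun p hp => (mem_filter.1 hp).2.1.pos

theorem P0_pos : 0 < P0 s R := by
  classical
  unfold P0
  exact prod_pos fun p hp => (mem_filter.1 hp).2.1.pos

theorem dvd_W0 {p : ℕ} (hp : p.Prime) : p ∣ W0 N s R ↔ p ≤ R ∧ ¬ p ∣ N ∧ ¬ (p : ℤ) ∣ s := by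
  classical
  unfold W0
  rw [hp.prime.dvd_finsetProd_iff]
  constructor
  · rintro ⟨q, hq, hpq⟩
    rw [mem_filter, mem_Icc] at hq
    have := (Nat.prime_dvd_prime_iff_eq hp hq.2.1).1 hpq
    subst this
    exact ⟨hq.1.2, hq.2.2⟩
  · rintro ⟨h1, h2⟩
    exact ⟨p, mem_filter.2 ⟨mem_Icc.2 ⟨hp.one_le, h1⟩, hp, h2⟩, dvd_rfl⟩

theorem dvd_P0 {p : ℕ} (hp : p.Prime) : p ∣ P0 s R ↔ p ≤ R ∧ (p : ℤ) ∣ s := by
  classical
  unfold P0
  rw [hp.prime.dvd_finsetProd_iff]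
  constructor
  · rintro ⟨q, hq, hpq⟩
    rw [mem_filter, mem_Icc] at hq
    have := (Nat.prime_dvd_prime_iff_eq hp hq.2.1).1 hpq
    subst this
    exact ⟨hq.1.2, hq.2.2⟩
  · rintro ⟨h1, h2⟩
    exact ⟨p, mem_filter.2 ⟨mem_Icc.2 ⟨hp.one_le, h1⟩, hp, h2⟩, dvd_rfl⟩

/-- the common difference -/
noncomputable def DD : ℕ := N * W0 N s R * P0 s R

/-- the shifts of the edges -/
noncomputable def sh (e : Fin 4 × Fin 4) : ℤ :=
  (N : ℤ) * W0 N s R * (((e.1 : ℕ) : ℤ) - ((e.2 : ℕ) : ℤ)) - s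

variable {N s R}

theorem dvd_DD {p : ℕ} (hp : p.Prime) (hR : p ≤ R) : p ∣ DD N s R := by
  unfold DD
  by_cases h1 : p ∣ N
  · exact (h1.mul_right _).mul_right _
  by_cases h2 : (p : ℤ) ∣ s
  · exact ((dvd_P0 s R hp).2 ⟨hR, h2⟩).mul_left _
  · exact (((dvd_W0 N s R hp).2 ⟨hR, h1, h2⟩).mul_left _).mul_right _

theorem not_dvd (hs : IsCoprime s (3 * (N : ℤ))) {p : ℕ} (hp : p.Prime) (h : (p : ℤ) ∣ s) :
    ¬ p ∣ N ∧ p ≠ 3 := by
  constructor
  · intro h1
    have h2 : (p : ℤ) ∣ 3 * (N : ℤ) := Dvd.dvd.mul_left (by exact_mod_cast h1) _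
    have h3 := hs.isUnit_of_dvd' h h2
    rw [Int.isUnit_iff] at h3
    have := hp.one_lt
    omega
  · intro h1
    have h2 : (p : ℤ) ∣ 3 * (N : ℤ) := by
      rw [h1]
      push_cast
      exact dvd_mul_right _ _
    have h3 := hs.isUnit_of_dvd' h h2
    rw [Int.isUnit_iff] at h3
    have := hp.one_lt
    omega

theorem five_le (hs : IsCoprime s (3 * (N : ℤ))) (h2N : 2 ∣ N) {p : ℕ} (hp : p.Prime)
    (h : (p : ℤ) ∣ s) : 5 ≤ p := by
  obtain ⟨h1, h2⟩ := not_dvd hs hp h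
  have h3 : p ≠ 2 := fun h4 => h1 (h4 ▸ h2N)
  have h4 : p ≠ 4 := fun h5 => by rw [h5] at hp; revert hp; decide
  have := hp.two_le
  omega

theorem sh_coprime (hs : IsCoprime s (3 * (N : ℤ))) (h2N : 2 ∣ N) (e : Fin 4 × Fin 4)
    (he : e ∈ K4) : IsCoprime (sh N s R e) (DD N s R : ℤ) := by
  rw [Int.isCoprime_iff_gcd_eq_one]
  by_contra hcon
  have hcon' : ¬ Nat.Coprime (sh N s R e).natAbs (DD N s R) := by
    intro h
    exact hcon h
  obtain ⟨p, hp, h1, h2⟩ := Nat.Prime.not_coprime_iff_dvd.1 hcon'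
  rw [← Int.natCast_dvd] at h1
  have hpZ : Prime (p : ℤ) := Nat.prime_iff_prime_int.1 hp
  unfold sh at h1
  unfold DD at h2
  rcases (hp.dvd_mul).1 h2 with h3 | h3
  · have h4 : (p : ℤ) ∣ (N : ℤ) * W0 N s R * (((e.1 : ℕ) : ℤ) - ((e.2 : ℕ) : ℤ)) :=
      Dvd.dvd.mul_right (by exact_mod_cast h3) _
    have h5 : (p : ℤ) ∣ s := by
      have := dvd_sub h4 h1
      rwa [sub_sub_cancel] at this
    rcases (hp.dvd_mul).1 h3 with h6 | h6
    · exact (not_dvd hs hp h5).1 h6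
    · exact ((dvd_W0 N s R hp).1 h6).2.2 h5
  · have h4 := ((dvd_P0 s R hp).1 h3).2
    have h5 : (p : ℤ) ∣ (N : ℤ) * W0 N s R * (((e.1 : ℕ) : ℤ) - ((e.2 : ℕ) : ℤ)) := by
      have := dvd_add h1 h4
      rwa [sub_add_cancel] at this
    rcases hpZ.dvd_or_dvd h5 with h6 | h6
    · rcases hpZ.dvd_or_dvd h6 with h7 | h7
      · exact (not_dvd hs hp h4).1 (by exact_mod_cast h7)
      · exact ((dvd_W0 N s R hp).1 (by exact_mod_cast h7)).2.2 h4
    · have h7 := five_le hs h2N hp h4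
      have h8 : (e.2 : ℕ) < (e.1 : ℕ) := mem_K4.1 he
      have h9 : (e.1 : ℕ) < 4 := e.1.2
      have h10 := Int.le_of_dvd (by omega) h6
      omega

/-- the shifts -/
noncomputable def Hs (N : ℕ) (s : ℤ) (R : ℕ) {K : ℕ} (A : Fin 4 → Fin K → ℕ) :
    Fin 4 → Fin K → ℕ := fun g i => W0 N s R * (P0 s R * A g i + (g : ℕ))

/-- the order of the shifts -/
theorem Hs_lt {K : ℕ} (A : Fin 4 → Fin K → ℕ)
    (hA2 : ∀ c : Fin 4 → Fin K, ∀ e ∈ K4, 1 ≤ (A e.1 (c e.1) : ℤ) - A e.2 (c e.2))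
    (g g' : Fin 4) (i i' : Fin K) (hg : g < g') : A g i < A g' i' ∧
    Hs N s R A g i < Hs N s R A g' i' := by
  have h1 := hA2 (fun v => if v = g then i else i') (g', g) (mem_K4.2 hg)
  simp only [if_neg hg.ne', if_true] at h1
  have h2 : A g i < A g' i' := by omega
  refine ⟨h2, ?_⟩
  unfold Hs
  have h3 : (g : ℕ) < (g' : ℕ) := hg
  have h4 := W0_pos N s R
  have h5 := P0_pos s R
  apply Nat.mul_lt_mul_of_pos_left _ h4
  have h6 : P0 s R * A g i ≤ P0 s R * A g' i' := Nat.mul_le_mul_left _ h2.le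
  omega

/-- admissibility -/
theorem Hs_adm {K : ℕ} (hs : IsCoprime s (3 * (N : ℤ))) (h2N : 2 ∣ N) (hR : 4 * K ≤ R)
    (A : Fin 4 → Fin K → ℕ) (hA1 : ∀ i, Function.Injective (A i))
    (hA2 : ∀ c : Fin 4 → Fin K, ∀ e ∈ K4, 1 ≤ (A e.1 (c e.1) : ℤ) - A e.2 (c e.2)) :
    AdmN N (Hs N s R A) := by
  constructor
  · rintro ⟨g, i⟩ ⟨g', i'⟩ h
    have h' : Hs N s R A g i = Hs N s R A g' i' := h
    rcases lt_trichotomy g g' with hg | hg | hg
    · exact absurd h' (Hs_lt A hA2 g g' i i' hg).2.ne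
    · subst hg
      unfold Hs at h'
      have h1 := Nat.eq_of_mul_eq_mul_left (W0_pos N s R) h'
      have h2 : P0 s R * A g i = P0 s R * A g i' := by omega
      have h3 := Nat.eq_of_mul_eq_mul_left (P0_pos s R) h2
      rw [hA1 g h3]
    · exact absurd h' (Hs_lt A hA2 g' g i' i hg).2.ne'
  · intro p hp hpN
    by_cases hpR : p ≤ R
    · by_cases hps : (p : ℤ) ∣ s
      · refine ⟨-(4 * (W0 N s R : ℤ)), fun g i h => ?_⟩
        have h1 : (p : ℤ) ∣ (P0 s R : ℤ) := by exact_mod_cast (dvd_P0 s R hp).2 ⟨hpR, hps⟩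
        unfold Hs at h
        push_cast at h
        have h2 : -(4 * (W0 N s R : ℤ)) + (W0 N s R : ℤ) * ((P0 s R : ℤ) * A g i + (g : ℕ)) =
            (W0 N s R : ℤ) * ((P0 s R : ℤ) * A g i + (((g : ℕ) : ℤ) - 4)) := by ring
        rw [h2] at h
        have hpZ : Prime (p : ℤ) := Nat.prime_iff_prime_int.1 hp
        rcases hpZ.dvd_or_dvd h with h3 | h3
        · exact ((dvd_W0 N s R hp).1 (by exact_mod_cast h3)).2.2 hps
        · have h4 : (p : ℤ) ∣ ((g : ℕ) : ℤ) - 4 :=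
            (Int.dvd_add_right (h1.mul_right _)).1 h3
          have h5 := five_le hs h2N hp hps
          have h6 : (g : ℕ) < 4 := g.2
          have h7 : (p : ℤ) ∣ 4 - ((g : ℕ) : ℤ) := by
            have := (dvd_neg (a := (p : ℤ))).2 h4
            rwa [neg_sub] at this
          have h8 := Int.le_of_dvd (by omega) h7
          omega
      · refine ⟨1, fun g i h => ?_⟩
        have h1 : p ∣ W0 N s R := (dvd_W0 N s R hp).2 ⟨hpR, hpN, hps⟩
        have h2 : (p : ℤ) ∣ (Hs N s R A g i : ℤ) := by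
          have : p ∣ Hs N s R A g i := by unfold Hs; exact h1.mul_right _
          exact_mod_cast this
        have h3 : (p : ℤ) ∣ 1 := (Int.dvd_add_left h2).1 h
        have h4 := Int.le_of_dvd one_pos h3
        have := hp.two_le
        omega
    · haveI : NeZero p := ⟨hp.ne_zero⟩
      have h1 : ¬ Function.Surjective (fun x : Fin 4 × Fin K =>
          (-(Hs N s R A x.1 x.2 : ℕ) : ZMod p)) := by
        intro h
        have h2 := Fintype.card_le_of_surjective _ h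
        rw [ZMod.card, Fintype.card_prod, Fintype.card_fin, Fintype.card_fin] at h2
        omega
      unfold Function.Surjective at h1
      push Not at h1
      obtain ⟨r, hr⟩ := h1
      refine ⟨(r.val : ℤ), fun g i h => hr (g, i) ?_⟩
      rw [← ZMod.intCast_zmod_eq_zero_iff_dvd] at h
      push_cast at h
      rw [ZMod.natCast_zmod_val] at h
      simp only
      linear_combination -h

/-- the good values -/
def PP (N a : ℕ) (s : ℤ) (R : ℕ) (e : Fin 4 × Fin 4) (k : ℤ) : Prop :=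
  ∃ j ∈ GapB N a, (N : ℤ) * j = (DD N s R : ℤ) * k + sh N s R e + s

/-- the input from the theory of prime gaps -/
theorem hbad_PP : ∃ K : ℕ, ∀ (N a : ℕ) (s : ℤ), Squarefree N → 2 ∣ N → a.Coprime N →
    IsCoprime s (3 * (N : ℤ)) → ∀ R : ℕ, 4 * K ≤ R →
    ∀ A : Fin 4 → Fin K → ℕ, (∀ i, Function.Injective (A i)) →
      (∀ c : Fin 4 → Fin K, ∀ e ∈ K4, 1 ≤ (A e.1 (c e.1) : ℤ) - A e.2 (c e.2)) →
      ∃ c : Fin 4 → Fin K, ∃ e ∈ K4,
        PP N a s R e ((A e.1 (c e.1) : ℤ) - A e.2 (c e.2)) := by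
  obtain ⟨K, hK, hfour⟩ :=
    Pool.Agent.Y877.four (Pool.Agent.W473.UBCB.main Pool.Agent.W25.UB.thmVG)
  refine ⟨K, fun N a s hsq h2N ha hs R hR A hA1 hA2 => ?_⟩
  have hN : 0 < N := Nat.pos_of_ne_zero hsq.ne_zero
  obtain ⟨g, g', i, i', hgg, hlt, hG⟩ := hfour N a hN h2N hsq ha (Hs N s R A)
    (Hs_adm hs h2N hR A hA1 hA2)
  have hlt' : g < g' := by
    rcases lt_trichotomy g g' with h | h | h
    · exact h
    · exact absurd h hgg
    · have := (Hs_lt (N := N) (s := s) (R := R) A hA2 g' g i' i h).2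
      omega
  refine ⟨fun v => if v = g then i else i', (g', g), mem_K4.2 hlt', _, hG, ?_⟩
  simp only [if_neg hlt'.ne', if_true]
  rw [Nat.cast_sub hlt.le]
  unfold Hs DD sh
  push_cast
  ring

end

end Pool.Agent.Zk78.SP
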