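import Mathlib
import Pool.Agent.Zk78.SP.Par

/-!
# Shifted primes which are gaps between consecutive primes
-/

set_option autoImplicit false

open Finset

namespace Pool.Agent.Zk78.SP

open Pool.Agent.W59.GB Pool.Agent.H947R3.GM Pool.Agent.H373R2.T7

/-- the prime powers which are not primes -/
theorem not_prime_sum (X : ℕ) (hX : 1 ≤ X) :
    ∑ q ∈ (Icc 1 X).filter (fun q => ¬ q.Prime), ArithmeticFunction.vonMangoldt q ≤
      2 * √(X : ℝ) * Real.log X := by
  have h1 := Chebyshev.abs_psi_sub_theta_le_sqrt_mul_log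
    (x := (X : ℝ)) (by exact_mod_cast hX)
  have h2 : Chebyshev.psi (X : ℝ) = ∑ q ∈ Icc 1 X, ArithmeticFunction.vonMangoldt q := by
    unfold Chebyshev.psi
    rw [Nat.floor_natCast]
    rfl
  have h3 : Chebyshev.theta (X : ℝ) =
      ∑ q ∈ (Icc 1 X).filter (fun q => q.Prime), ArithmeticFunction.vonMangoldt q := by
    unfold Chebyshev.theta
    rw [Nat.floor_natCast]
    refine sum_congr rfl fun q hq => ?_
    rw [ArithmeticFunction.vonMangoldt_apply_prime (mem_filter.1 hq).2]
  rw [h2, h3, ← sum_filter_add_sum_filter_not (Icc 1 X) (fun q => q.Prime),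
    add_sub_cancel_left] at h1
  exact (le_abs_self _).trans h1

open Classical in
theorem shifted : ∀ (N a : ℕ) (s : ℤ), Squarefree N → 2 ∣ N → a.Coprime N →
    IsCoprime s (3 * (N : ℤ)) → ∃ c : ℝ, 0 < c ∧ ∃ X0 : ℕ, ∀ X : ℕ, X0 ≤ X →
    c * (X / Real.log X) ≤ ((((Icc 1 X).filter (fun q : ℕ => q.Prime ∧
      ∃ j ∈ GapB N a, (N : ℤ) * j = q + s)).card : ℕ) : ℝ) := by
  obtain ⟨K, hK⟩ := hbad_PP
  intro N a s hsq h2N ha hs
  have hN : 0 < N := Nat.pos_of_ne_zero hsq.ne_zero
  set R : ℕ := 4 * K + 12 with hR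
  set D := DD N s R with hDd
  have hDpos : 0 < D := by
    rw [hDd]
    unfold DD
    exact Nat.mul_pos (Nat.mul_pos hN (W0_pos N s R)) (P0_pos s R)
  have hD2 : 2 ≤ D := by
    have h1 : 2 ∣ D := dvd_DD Nat.prime_two (by omega)
    exact Nat.le_of_dvd hDpos h1
  obtain ⟨c, hc, Z0, h0⟩ := dens D hD2 (fun p hp h => dvd_DD hp (by omega)) (sh N s R)
    (fun e he => sh_coprime hs h2N e he) (PP N a s R) K
    (fun A hA1 hA2 => hK N a s hsq h2N ha hs R (by omega) A hA1 hA2)
  have hDr : (0 : ℝ) < D := by exact_mod_cast hDpos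
  obtain ⟨n1, h1⟩ := ev_log' 1 (16 * D / c)
  obtain ⟨n2, h2⟩ := ev_L' 1
  set M := K4.sup (fun e => (sh N s R e).natAbs) with hM
  refine ⟨c / (8 * D), by positivity, max (max n1 n2) (max (2 * D * (Z0 + 1)) (2 * M + 2)),
    fun X hX => ?_⟩
  have hX1 := h1 X (le_trans (le_trans (le_max_left _ _) (le_max_left _ _)) hX)
  have hX2 := h2 X (le_trans (le_trans (le_max_right _ _) (le_max_left _ _)) hX)
  have hX3 : 2 * D * (Z0 + 1) ≤ X :=
    le_trans (le_trans (le_max_left _ _) (le_max_right _ _)) hX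
  have hX4 : 2 * M + 2 ≤ X := le_trans (le_trans (le_max_right _ _) (le_max_right _ _)) hX
  set L := Real.log X with hLd
  have hL0 : 0 < L := by linarith
  set Z : ℕ := X / (2 * D) with hZ
  have hZZ0 : Z0 + 1 ≤ Z := by
    rw [hZ, Nat.le_div_iff_mul_le (by omega)]
    calc (Z0 + 1) * (2 * D) = 2 * D * (Z0 + 1) := by ring
      _ ≤ X := hX3
  have hZX : 2 * D * Z ≤ X := Nat.mul_div_le _ _
  have hZlow : (X : ℝ) / (4 * D) ≤ Z := by
    have h3 : X < 2 * D * (Z + 1) := Nat.lt_mul_div_succ X (by omega)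
    have h4 : X ≤ 4 * D * Z := by nlinarith
    have h5 : (X : ℝ) ≤ 4 * D * Z := by exact_mod_cast h4
    rw [div_le_iff₀ (by positivity)]
    linarith
  obtain ⟨e, he, hS⟩ := h0 Z (by omega)
  have hMe : (sh N s R e).natAbs ≤ M := by
    rw [hM]
    exact le_sup (f := fun e => (sh N s R e).natAbs) he
  -- the values
  set G := (Icc 1 Z).filter (fun k : ℕ => PP N a s R e k) with hG
  set v : ℕ → ℕ := fun k => ((D : ℤ) * k + sh N s R e).toNat with hv
  have hvX : ∀ k ∈ G, v k ≤ X := by
    intro k hk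
    rw [hG, mem_filter, mem_Icc] at hk
    rw [hv]
    simp only
    rw [Int.toNat_le]
    have h3 : (D : ℤ) * k ≤ D * Z := by
      apply mul_le_mul_of_nonneg_left _ (by positivity)
      exact_mod_cast hk.1.2
    have h4 : 2 * ((D : ℤ) * Z) ≤ X := by
      have : ((2 * D * Z : ℕ) : ℤ) ≤ X := by exact_mod_cast hZX
      push_cast at this
      linarith
    omega
  set G1 := G.filter (fun k => 1 ≤ v k) with hG1
  have hsum : ∑ k ∈ G, fL D (sh N s R) e k =
      ∑ q ∈ G1.image v, ArithmeticFunction.vonMangoldt q := by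
    rw [sum_image]
    · have h6 : ∑ k ∈ G1, ArithmeticFunction.vonMangoldt (v k) =
          ∑ k ∈ G, if 1 ≤ v k then ArithmeticFunction.vonMangoldt (v k) else 0 :=
        sum_filter (fun k => 1 ≤ v k) (fun k => ArithmeticFunction.vonMangoldt (v k))
      rw [h6]
      refine sum_congr rfl fun k _ => ?_
      split_ifs with h3
      · rfl
      · have h4 : v k = 0 := by omega
        have h5 : fL D (sh N s R) e k = ArithmeticFunction.vonMangoldt (v k) := rfl
        rw [h5, h4]
        simp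
    · intro k hk k' hk' h3
      have hk2 := (mem_filter.1 (mem_coe.1 hk)).2
      have hk2' := (mem_filter.1 (mem_coe.1 hk')).2
      have h3' : ((D : ℤ) * k + sh N s R e).toNat = ((D : ℤ) * k' + sh N s R e).toNat := h3
      have hk3 : 1 ≤ ((D : ℤ) * k + sh N s R e).toNat := hk2
      have h4 : (D : ℤ) * k = D * k' := by omega
      have h5 : (D : ℤ) ≠ 0 := by positivity
      have := mul_left_cancel₀ h5 h4
      exact_mod_cast this
  have hsub : G1.image v ⊆ Icc 1 X := by
    intro q hq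
    rw [mem_image] at hq
    obtain ⟨k, hk, rfl⟩ := hq
    rw [hG1, mem_filter] at hk
    rw [mem_Icc]
    exact ⟨hk.2, hvX k hk.1⟩
  set F := (Icc 1 X).filter (fun q : ℕ => q.Prime ∧ ∃ j ∈ GapB N a, (N : ℤ) * j = q + s)
    with hF
  have hsplit : ∑ q ∈ G1.image v, ArithmeticFunction.vonMangoldt q ≤
      ∑ q ∈ F, ArithmeticFunction.vonMangoldt q +
      ∑ q ∈ (Icc 1 X).filter (fun q => ¬ q.Prime), ArithmeticFunction.vonMangoldt q := by
    rw [← sum_union]
    · apply sum_le_sum_of_subset_of_nonneg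
      · intro q hq
        have hqX := hsub hq
        rw [mem_union]
        by_cases hqp : q.Prime
        · left
          rw [hF, mem_filter]
          refine ⟨hqX, hqp, ?_⟩
          rw [mem_image] at hq
          obtain ⟨k, hk, hkq⟩ := hq
          rw [hG1, mem_filter, hG, mem_filter] at hk
          obtain ⟨j, hj, hj2⟩ := hk.1.2
          refine ⟨j, hj, ?_⟩
          have h4 : 1 ≤ ((D : ℤ) * k + sh N s R e).toNat := hk.2
          have h5 : ((D : ℤ) * k + sh N s R e).toNat = q := hkq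
          rw [hj2, ← hDd]
          omega
        · right
          rw [mem_filter]
          exact ⟨hqX, hqp⟩
      · intro q _ _
        exact ArithmeticFunction.vonMangoldt_nonneg
    · rw [disjoint_left]
      intro q hq hq'
      rw [hF, mem_filter] at hq
      rw [mem_filter] at hq'
      exact hq'.2 hq.2.1
  have hXr : (1 : ℝ) ≤ X := by exact_mod_cast (by omega : 1 ≤ X)
  have hX0 : (0 : ℝ) < X := by linarith
  have hFsum : ∑ q ∈ F, ArithmeticFunction.vonMangoldt q ≤ F.card * L := by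
    rw [← nsmul_eq_mul, ← sum_const]
    refine sum_le_sum fun q hq => ?_
    rw [hF, mem_filter, mem_Icc] at hq
    refine ArithmeticFunction.vonMangoldt_le_log.trans ?_
    apply Real.log_le_log
    · exact_mod_cast hq.1.1
    · exact_mod_cast hq.1.2
  have hnp := not_prime_sum X (by omega)
  rw [← hLd] at hnp
  have hsm : 2 * √(X : ℝ) * L ≤ c * X / (8 * D) := by
    rw [pow_one] at hX1
    have h3 : 16 * D * L ≤ c * √(X : ℝ) := by
      have h4 : 16 * D / c * L = 16 * D * L / c := by ring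
      rw [h4, div_le_iff₀ hc] at hX1
      linarith
    rw [le_div_iff₀ (by positivity)]
    have h4 : √(X : ℝ) * √(X : ℝ) = X := Real.mul_self_sqrt hX0.le
    calc 2 * √(X : ℝ) * L * (8 * D) = √(X : ℝ) * (16 * D * L) := by ring
      _ ≤ √(X : ℝ) * (c * √(X : ℝ)) := by gcongr
      _ = c * (√(X : ℝ) * √(X : ℝ)) := by ring
      _ = c * X := by rw [h4]
  have hbig : c * X / (4 * D) ≤ c * Z := by
    calc c * X / (4 * D) = c * (X / (4 * D)) := by ring
      _ ≤ c * Z := by gcongr
  have hfin : c * X / (8 * D) ≤ F.card * L := by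
    have h3 : c * X / (4 * D) = c * X / (8 * D) + c * X / (8 * D) := by
      field_simp
      ring
    linarith
  have h4 : c / (8 * D) * (X / L) = c * X / (8 * D) / L := by
    field_simp
  rw [h4, div_le_iff₀ hL0]
  exact hfin

end Pool.Agent.Zk78.SP
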